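import Pool.Agent.Lib.MP_4dc748_co.RS.Iface

/-!
# The action of matrices on families of subsets of the classes

For matrices `M` (invertible) and `N` the point `(v, b)` goes to `(M v, M b + N s(v))`. This map carries arcs to arcs.
-/

set_option autoImplicit false

namespace Pool.Agent.Lib.MP_4dc748_co.AB

open Pool.Agent.Lib.MP_4dc748_co.TA Pool.Agent.Lib.MP_4dc748_co.RS Matrix

variable {s : F4 ≃+* F4}

/-- The line bound for lines `(a, c)`, `a` any nonzero vector. -/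
theorem LineBound.gen {n : ℕ} {K : Fin 21 → Finset (F4 × F4)} (hK : LineBound s n K)
    {a : Fin 3 → F4} (ha : a ≠ 0) (c : Fin 3 → F4) [DecidablePred (fun x : (_ : Fin 21) × (F4 × F4) =>
      Inc s a c (vec x.1) (bpt x.1 x.2))] :
    ((Finset.univ.sigma K).filter (fun x : (_ : Fin 21) × (F4 × F4) =>
      Inc s a c (vec x.1) (bpt x.1 x.2))).card ≤ n := by
  classical
  obtain ⟨q, e, he, hq⟩ := exists_class ha
  have h1 : ∀ x : (_ : Fin 21) × (F4 × F4), Inc s a c (vec x.1) (bpt x.1 x.2) ↔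
      Inc s (vec q) (e⁻¹ • c) (vec x.1) (bpt x.1 x.2) := by
    intro x
    have h2 : ∀ y, a ⬝ᵥ y = e * (vec q ⬝ᵥ y) := fun y => by rw [hq, smul_dotProduct, smul_eq_mul]
    have h3 : ∀ y, c ⬝ᵥ y = e * ((e⁻¹ • c) ⬝ᵥ y) := fun y => by
      rw [smul_dotProduct, smul_eq_mul, ← mul_assoc, mul_inv_cancel₀ he, one_mul]
    unfold Inc
    rw [h2, h2, h3, ← mul_add, mul_eq_zero, mul_eq_zero]
    simp [he]
  have h4 := hK q (e⁻¹ • c)
  rw [← card_filter_inc] at h4
  refine le_trans (Finset.card_le_card ?_) h4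
  intro x hx
  rw [Finset.mem_filter] at hx ⊢
  exact ⟨hx.1, (h1 x).1 hx.2⟩

/-- The point `(q, r)` is the image of the point `(p, t)`. -/
def Rel (s : F4 ≃+* F4) (M N : Matrix (Fin 3) (Fin 3) F4) (p : Fin 21) (t : F4 × F4) (q : Fin 21)
    (r : F4 × F4) : Prop :=
  ∃ e d : F4, e ≠ 0 ∧ M *ᵥ vec p = e • vec q ∧
    M *ᵥ bpt p t + N *ᵥ (s ∘ vec p) = s e • (d • vec q + bpt q r)

theorem map_ne {e : F4} (he : e ≠ 0) : s e ≠ 0 := by
  rw [Ne, map_eq_zero_iff s s.injective]
  exact he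

theorem mulVec_inj {M M' : Matrix (Fin 3) (Fin 3) F4} (hM : M' * M = 1) {x y : Fin 3 → F4}
    (h : M *ᵥ x = M *ᵥ y) : x = y := by
  have h1 := congrArg (fun z => M' *ᵥ z) h
  simp only [mulVec_mulVec, hM, one_mulVec] at h1
  exact h1

theorem Rel.exists_right {M M' : Matrix (Fin 3) (Fin 3) F4} (hM : M' * M = 1)
    (N : Matrix (Fin 3) (Fin 3) F4) (p : Fin 21) (t : F4 × F4) : ∃ q r, Rel s M N p t q r := by
  have h0 : M *ᵥ vec p ≠ 0 := by
    intro h
    rw [← mulVec_zero M] at h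
    exact vec_ne_zero p (mulVec_inj hM h)
  obtain ⟨q, e, he, hq⟩ := exists_class h0
  obtain ⟨r, d, hr⟩ := exists_bpt q ((s e)⁻¹ • (M *ᵥ bpt p t + N *ᵥ (s ∘ vec p)))
  refine ⟨q, r, e, d, he, hq, ?_⟩
  rw [← hr, smul_smul, mul_inv_cancel₀ (map_ne he), one_smul]

theorem Rel.left_unique {M M' : Matrix (Fin 3) (Fin 3) F4} (hM : M' * M = 1)
    {N : Matrix (Fin 3) (Fin 3) F4} {p p' : Fin 21} {t t' : F4 × F4} {q : Fin 21} {r : F4 × F4}
    (h : Rel s M N p t q r) (h' : Rel s M N p' t' q r) : p = p' ∧ t = t' := by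
  obtain ⟨e, d, he, h1, h2⟩ := h
  obtain ⟨e', d', he', h1', h2'⟩ := h'
  have h3 : vec p' = (e' * e⁻¹) • vec p := by
    apply mulVec_inj hM
    rw [mulVec_smul, h1, h1', smul_smul, mul_assoc, inv_mul_cancel₀ he, mul_one]
  obtain ⟨h4, h5⟩ := class_inj h3
  subst h4
  have h6 : e' = e := by
    have := congrArg (fun z => z * e) h5
    simp only [mul_assoc, inv_mul_cancel₀ he, mul_one, one_mul] at this
    exact this
  subst h6
  refine ⟨rfl, ?_⟩
  refine bpt_inj (p := p') (d := s e' * (d + d') * e'⁻¹) ?_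
  apply mulVec_inj hM
  rw [mulVec_add, mulVec_smul, h1]
  have h7 : M *ᵥ bpt p' t = s e' • (d • vec q + bpt q r) + N *ᵥ (s ∘ vec p') := by
    rw [← h2]
    funext k
    simp only [Pi.add_apply]
    have h6 := F4.add_self ((N *ᵥ (s ∘ vec p')) k)
    linear_combination - h6
  have h8 : M *ᵥ bpt p' t' = s e' • (d' • vec q + bpt q r) + N *ᵥ (s ∘ vec p') := by
    rw [← h2']
    funext k
    simp only [Pi.add_apply]
    have h6 := F4.add_self ((N *ᵥ (s ∘ vec p')) k)
    linear_combination - h6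
  rw [h7, h8]
  funext k
  simp only [Pi.add_apply, Pi.smul_apply, smul_eq_mul]
  have h9 : s e' * (d + d') * e'⁻¹ * (e' * vec q k) = s e' * (d + d') * vec q k := by
    rw [← mul_assoc, mul_assoc _ e'⁻¹, inv_mul_cancel₀ he, mul_one]
  have h6 := F4.add_self (s e' * d' * vec q k)
  rw [h9]
  linear_combination - h6

theorem Rel.right_unique {M : Matrix (Fin 3) (Fin 3) F4}
    {N : Matrix (Fin 3) (Fin 3) F4} {p : Fin 21} {t : F4 × F4} {q q' : Fin 21} {r r' : F4 × F4}
    (h : Rel s M N p t q r) (h' : Rel s M N p t q' r') : q = q' ∧ r = r' := by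
  obtain ⟨e, d, he, h1, h2⟩ := h
  obtain ⟨e', d', he', h1', h2'⟩ := h'
  have h3 : vec q' = (e'⁻¹ * e) • vec q := by
    rw [mul_smul, ← h1, h1', smul_smul, inv_mul_cancel₀ he', one_smul]
  obtain ⟨h4, h5⟩ := class_inj h3
  subst h4
  have h6 : e = e' := by
    have := congrArg (fun z => e' * z) h5
    simp only [← mul_assoc, mul_inv_cancel₀ he', mul_one, one_mul] at this
    exact this
  subst h6
  refine ⟨rfl, ?_⟩
  refine bpt_inj (p := q') (d := d' + d) ?_
  have h7 : s e • (d • vec q' + bpt q' r) = s e • (d' • vec q' + bpt q' r') := by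
    rw [← h2, ← h2']
  have h8 := congrArg (fun z => (s e)⁻¹ • z) h7
  simp only [smul_smul, inv_mul_cancel₀ (map_ne (s := s) he), one_smul] at h8
  funext k
  have h9 := congrFun h8 k
  simp only [Pi.add_apply, Pi.smul_apply, smul_eq_mul] at h9 ⊢
  have h10 := F4.add_self (d * vec q' k)
  linear_combination h9 - h10

theorem Rel.inc_iff {M N : Matrix (Fin 3) (Fin 3) F4} {p : Fin 21} {t : F4 × F4} {q : Fin 21}
    {r : F4 × F4} (h : Rel s M N p t q r) (a c : Fin 3 → F4) :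
    Inc s a c (vec q) (bpt q r) ↔
      Inc s (a ᵥ* M) (a ᵥ* N + c ᵥ* (M.map s)) (vec p) (bpt p t) := by
  obtain ⟨e, d, he, h1, h2⟩ := h
  rw [← RS.inc_iff he h1 h2]
  unfold Inc
  have h3 : s ∘ (M *ᵥ vec p) = (M.map s) *ᵥ (s ∘ vec p) := by
    funext k
    simp [mulVec, dotProduct]
  rw [h3, dotProduct_mulVec, dotProduct_add, dotProduct_mulVec, dotProduct_mulVec, dotProduct_mulVec,
    add_dotProduct, add_assoc]

open scoped Classical in
/-- The image of a family. -/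
noncomputable def act (s : F4 ≃+* F4) (M N : Matrix (Fin 3) (Fin 3) F4)
    (K : Fin 21 → Finset (F4 × F4)) : Fin 21 → Finset (F4 × F4) :=
  fun q => Finset.univ.filter (fun r => ∃ p t, t ∈ K p ∧ Rel s M N p t q r)

theorem mem_act {M M' : Matrix (Fin 3) (Fin 3) F4} (hM : M' * M = 1)
    {N : Matrix (Fin 3) (Fin 3) F4} {K : Fin 21 → Finset (F4 × F4)} {p : Fin 21} {t : F4 × F4}
    {q : Fin 21} {r : F4 × F4} (h : Rel s M N p t q r) : r ∈ act s M N K q ↔ t ∈ K p := by
  classical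
  unfold act
  rw [Finset.mem_filter]
  constructor
  · rintro ⟨-, p', t', h1, h2⟩
    obtain ⟨h3, h4⟩ := h.left_unique hM h2
    subst h3 h4
    exact h1
  · intro h1
    exact ⟨Finset.mem_univ _, p, t, h1, h⟩

theorem card_act {M M' : Matrix (Fin 3) (Fin 3) F4} (hM : M' * M = 1)
    (N : Matrix (Fin 3) (Fin 3) F4) (K : Fin 21 → Finset (F4 × F4)) {p q : Fin 21} {e : F4}
    (he : e ≠ 0) (h : M *ᵥ vec p = e • vec q) : (act s M N K q).card = (K p).card := by
  classical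
  have h0 : ∀ t, ∃ r, Rel s M N p t q r := by
    intro t
    obtain ⟨q', r, hr⟩ := Rel.exists_right (s := s) hM N p t
    have h1 : q' = q := by
      obtain ⟨e', d', he', h1', h2'⟩ := hr
      have h3 : vec q' = (e'⁻¹ * e) • vec q := by
        rw [mul_smul, ← h, h1', smul_smul, inv_mul_cancel₀ he', one_smul]
      exact (class_inj h3).1
    subst h1
    exact ⟨r, hr⟩
  choose f hf using h0
  symm
  refine Finset.card_bij (fun t _ => f t) ?_ ?_ ?_
  · intro t ht
    exact (mem_act hM (hf t)).2 ht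
  · intro t _ t' _ h1
    have h2 := hf t
    change f t = f t' at h1
    rw [h1] at h2
    exact (h2.left_unique hM (hf t')).2
  · intro r hr
    unfold act at hr
    rw [Finset.mem_filter] at hr
    obtain ⟨-, p', t', h1, h2⟩ := hr
    have h3 : p' = p := by
      obtain ⟨e', d', he', h1', h2'⟩ := h2
      have h3 : vec p' = (e' * e⁻¹) • vec p := by
        apply mulVec_inj hM
        rw [mulVec_smul, h, h1', smul_smul, mul_assoc, inv_mul_cancel₀ he, mul_one]
      exact (class_inj h3).1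
    subst h3
    exact ⟨t', h1, ((hf t').right_unique h2).2⟩

theorem vecMul_ne {M M' : Matrix (Fin 3) (Fin 3) F4} (hM : M * M' = 1) {a : Fin 3 → F4}
    (ha : a ≠ 0) : a ᵥ* M ≠ 0 := by
  intro h
  apply ha
  have h1 := congrArg (fun z => z ᵥ* M') h
  simp only [vecMul_vecMul, hM, vecMul_one, zero_vecMul] at h1
  exact h1

/-- Arcs go to arcs. -/
theorem lineBound_act {M M' : Matrix (Fin 3) (Fin 3) F4} (hM : M' * M = 1) (hM' : M * M' = 1)
    (N : Matrix (Fin 3) (Fin 3) F4) {n : ℕ} {K : Fin 21 → Finset (F4 × F4)}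
    (hK : LineBound s n K) : LineBound s n (act s M N K) := by
  classical
  intro a c
  rw [← card_filter_inc]
  refine le_trans ?_ (LineBound.gen hK (vecMul_ne hM' (vec_ne_zero a)) (vec a ᵥ* N + c ᵥ* (M.map s)))
  have h0 : ∀ y : (_ : Fin 21) × (F4 × F4), y ∈ Finset.univ.sigma (act s M N K) →
      ∃ x : (_ : Fin 21) × (F4 × F4), x ∈ Finset.univ.sigma K ∧ Rel s M N x.1 x.2 y.1 y.2 := by
    rintro ⟨q, r⟩ hy
    rw [Finset.mem_sigma] at hy
    have h1 := hy.2
    unfold act at h1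
    rw [Finset.mem_filter] at h1
    obtain ⟨-, p, t, h2, h3⟩ := h1
    exact ⟨⟨p, t⟩, Finset.mem_sigma.2 ⟨Finset.mem_univ _, h2⟩, h3⟩
  choose! f hf using h0
  refine Finset.card_le_card_of_injOn f ?_ ?_
  · intro y hy
    rw [Finset.mem_coe, Finset.mem_filter] at hy
    rw [Finset.mem_coe, Finset.mem_filter]
    obtain ⟨h1, h2⟩ := hf y hy.1
    exact ⟨h1, (h2.inc_iff _ _).1 hy.2⟩
  · intro y hy y' hy' h1
    rw [Finset.mem_coe, Finset.mem_filter] at hy hy'
    obtain ⟨-, h2⟩ := hf y hy.1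
    obtain ⟨-, h3⟩ := hf y' hy'.1
    rw [h1] at h2
    obtain ⟨h4, h5⟩ := h2.right_unique h3
    obtain ⟨q, r⟩ := y
    obtain ⟨q', r'⟩ := y'
    dsimp only at h4 h5
    subst h4 h5
    rfl

end Pool.Agent.Lib.MP_4dc748_co.AB
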