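import Pool.Agent.Lib.MP_4dc748_co.AB.Oa

/-!
# The finite checks for one line class

Patterns are packed into natural numbers in base `16`: one digit for each of the `16` lines.
-/

set_option autoImplicit false

namespace Pool.Agent.Lib.MP_4dc748_co.AB

open Pool.Agent.Lib.MP_4dc748_co.RS

/-- The counts of a class at the labels `0, 1, w, w + 1`. -/
abbrev Pat : Type := ℕ × ℕ × ℕ × ℕ

/-- The count at a label. -/
def ev (n : Pat) : F4 → ℕ
  | F4.o => n.1
  | F4.i => n.2.1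
  | F4.w => n.2.2.1
  | F4.v => n.2.2.2

/-- The pattern of a function. -/
def pat (g : F4 → ℕ) : Pat := (g F4.o, g F4.i, g F4.w, g F4.v)

theorem ev_pat (g : F4 → ℕ) (x : F4) : ev (pat g) x = g x := by
  cases x <;> rfl

/-- The forms. -/
def lin (i : Fin 5) (s t : F4) : F4 :=
  match i with
  | 0 => s
  | 1 => t
  | 2 => s + t
  | 3 => s + F4.w * t
  | 4 => s + F4.v * t

/-- Packing. -/
def pack (N : F4 → F4 → ℕ) : ℕ :=
  16 * (16 * (16 * (16 * (16 * (16 * (16 * (16 * (16 * (16 * (16 * (16 * (16 * (16 * (16 * (N F4.v F4.v) + N F4.v F4.w) + N F4.v F4.i) + N F4.v F4.o) + N F4.w F4.v) + N F4.w F4.w) + N F4.w F4.i) + N F4.w F4.o) + N F4.i F4.v) + N F4.i F4.w) + N F4.i F4.i) + N F4.i F4.o) + N F4.o F4.v) + N F4.o F4.w) + N F4.o F4.i) + N F4.o F4.o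

/-- The packed pattern. -/
def pk (i : Fin 5) (n : Pat) : ℕ := pack (fun s t => ev n (lin i s t))

theorem pack_add (N N' : F4 → F4 → ℕ) : pack (fun s t => N s t + N' s t) = pack N + pack N' := by
  unfold pack
  ring

theorem land_step {x y m : ℕ} (hx : x < 8) : (16 * y + x) &&& (16 * m + 8) = 16 * (y &&& m) := by
  apply Nat.eq_of_testBit_eq
  intro j
  have h1 : (16 * y + x).testBit j = if j < 4 then x.testBit j else y.testBit (j - 4) :=
    Nat.testBit_two_pow_mul_add y (i := 4) (by omega) j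
  have h2 : (16 * m + 8).testBit j = if j < 4 then (8 : ℕ).testBit j else m.testBit (j - 4) :=
    Nat.testBit_two_pow_mul_add m (i := 4) (by omega) j
  have h3 : (16 * (y &&& m) + 0).testBit j = if j < 4 then (0 : ℕ).testBit j else (y &&& m).testBit (j - 4) :=
    Nat.testBit_two_pow_mul_add (y &&& m) (i := 4) (by omega) j
  rw [add_zero] at h3
  rw [Nat.testBit_land, h1, h2, h3]
  by_cases hj : j < 4
  · rw [if_pos hj, if_pos hj, if_pos hj]
    interval_cases j <;> interval_cases x <;> rfl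
  · rw [if_neg hj, if_neg hj, if_neg hj, Nat.testBit_land]

/-- The mask. -/
def mask : ℕ := 0x8888888888888888

theorem land_pack {N : F4 → F4 → ℕ} (h : ∀ s t, N s t ≤ 7) : pack N &&& mask = 0 := by
  have h' : ∀ s t, N s t < 8 := fun s t => Nat.lt_succ_of_le (h s t)
  have hm : mask = 16 * (16 * (16 * (16 * (16 * (16 * (16 * (16 * (16 * (16 * (16 * (16 * (16 * (16 * (16 * (8) + 8) + 8) + 8) + 8) + 8) + 8) + 8) + 8) + 8) + 8) + 8) + 8) + 8) + 8) + 8 := by
    rfl
  rw [hm]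
  unfold pack
  rw [land_step (h' F4.o F4.o), land_step (h' F4.o F4.i), land_step (h' F4.o F4.w), land_step (h' F4.o F4.v), land_step (h' F4.i F4.o), land_step (h' F4.i F4.i), land_step (h' F4.i F4.w), land_step (h' F4.i F4.v), land_step (h' F4.w F4.o), land_step (h' F4.w F4.i), land_step (h' F4.w F4.w), land_step (h' F4.w F4.v), land_step (h' F4.v F4.o), land_step (h' F4.v F4.i), land_step (h' F4.v F4.w)]
  have h1 := h F4.v F4.v
  interval_cases (N F4.v F4.v) <;> rfl

/-- The sum of the labels with odd count. -/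
def os (n : Pat) : F4 :=
  (if n.2.1 % 2 = 1 then F4.i else F4.o) + (if n.2.2.1 % 2 = 1 then F4.w else F4.o) +
    (if n.2.2.2 % 2 = 1 then F4.v else F4.o)

/-- The check. -/
def chk (T0 T1 T2 T3 T4 : List (ℕ × Pat)) (post : Pat → Pat → Pat → Pat → Pat → Bool) : Bool :=
  T1.all fun x1 => T2.all fun x2 => T3.all fun x3 => T4.all fun x4 =>
    !((x1.1 + x2.1 + x3.1 + x4.1) &&& mask == 0) ||
      T0.all fun x0 => !((x0.1 + (x1.1 + x2.1 + x3.1 + x4.1)) &&& mask == 0) ||
        post x0.2 x1.2 x2.2 x3.2 x4.2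

theorem chk_sound {T0 T1 T2 T3 T4 : List (ℕ × Pat)} {post : Pat → Pat → Pat → Pat → Pat → Bool}
    (h : chk T0 T1 T2 T3 T4 post = true) {f : Fin 5 → F4 → ℕ} (hf : Oa 7 f)
    (h0 : (pk 0 (pat (f 0)), pat (f 0)) ∈ T0) (h1 : (pk 1 (pat (f 1)), pat (f 1)) ∈ T1)
    (h2 : (pk 2 (pat (f 2)), pat (f 2)) ∈ T2) (h3 : (pk 3 (pat (f 3)), pat (f 3)) ∈ T3)
    (h4 : (pk 4 (pat (f 4)), pat (f 4)) ∈ T4) :
    post (pat (f 0)) (pat (f 1)) (pat (f 2)) (pat (f 3)) (pat (f 4)) = true := by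
  unfold chk at h
  rw [List.all_eq_true] at h
  have g1 := h _ h1
  rw [List.all_eq_true] at g1
  have g2 := g1 _ h2
  rw [List.all_eq_true] at g2
  have g3 := g2 _ h3
  rw [List.all_eq_true] at g3
  have g4 := g3 _ h4
  dsimp only at g4
  have e1 : pk 1 (pat (f 1)) + pk 2 (pat (f 2)) + pk 3 (pat (f 3)) + pk 4 (pat (f 4)) =
      pack (fun s t => f 1 t + f 2 (s + t) + f 3 (s + F4.w * t) + f 4 (s + F4.v * t)) := by
    unfold pk
    rw [← pack_add, ← pack_add, ← pack_add]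
    congr 1
    funext s t
    simp only [ev_pat]
    rfl
  have e0 : pk 0 (pat (f 0)) + (pk 1 (pat (f 1)) + pk 2 (pat (f 2)) + pk 3 (pat (f 3)) + pk 4 (pat (f 4))) =
      pack (fun s t => f 0 s + (f 1 t + f 2 (s + t) + f 3 (s + F4.w * t) + f 4 (s + F4.v * t))) := by
    rw [e1]
    unfold pk
    rw [← pack_add]
    congr 1
    funext s t
    simp only [ev_pat]
    rfl
  have b1 : (pk 1 (pat (f 1)) + pk 2 (pat (f 2)) + pk 3 (pat (f 3)) + pk 4 (pat (f 4))) &&& mask = 0 := by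
    rw [e1]
    refine land_pack fun s t => ?_
    have := hf s t
    omega
  have b0 : (pk 0 (pat (f 0)) + (pk 1 (pat (f 1)) + pk 2 (pat (f 2)) + pk 3 (pat (f 3)) + pk 4 (pat (f 4)))) &&& mask = 0 := by
    rw [e0]
    refine land_pack fun s t => ?_
    have := hf s t
    omega
  rw [b1, Bool.or_eq_true] at g4
  rcases g4 with g4 | g4
  · exact absurd g4 (by decide)
  rw [List.all_eq_true] at g4
  have g5 := g4 _ h0
  dsimp only at g5
  rw [b0, Bool.or_eq_true] at g5
  rcases g5 with g5 | g5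
  · exact absurd g5 (by decide)
  exact g5

/-- A list of patterns. -/
def L2 : List Pat := [(0, 0, 1, 1), (0, 1, 0, 1), (0, 1, 1, 0), (1, 0, 0, 1), (1, 0, 1, 0), (1, 1, 0, 0)]

/-- A list of patterns. -/
def L1 : List Pat := [(0, 0, 0, 1), (0, 0, 1, 0), (0, 1, 0, 0), (1, 0, 0, 0)]

/-- A list of patterns. -/
def L6 : List Pat := [(0, 2, 2, 2), (1, 1, 2, 2), (1, 2, 1, 2), (1, 2, 2, 1), (2, 0, 2, 2), (2, 1, 1, 2), (2, 1, 2, 1), (2, 2, 0, 2), (2, 2, 1, 1), (2, 2, 2, 0)]

/-- A list of patterns. -/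
def L5 : List Pat := [(0, 1, 2, 2), (0, 2, 1, 2), (0, 2, 2, 1), (1, 0, 2, 2), (1, 1, 1, 2), (1, 1, 2, 1), (1, 2, 0, 2), (1, 2, 1, 1), (1, 2, 2, 0), (2, 0, 1, 2), (2, 0, 2, 1), (2, 1, 0, 2), (2, 1, 1, 1), (2, 1, 2, 0), (2, 2, 0, 1), (2, 2, 1, 0)]

/-- A list of patterns. -/
def L33 : List Pat := [(0, 0, 3, 3), (0, 3, 0, 3), (0, 3, 3, 0), (3, 0, 0, 3), (3, 0, 3, 0), (3, 3, 0, 0)]

/-- A table of packed patterns. -/
def T_L2_0 : List (ℕ × Pat) := [(1229782937960972288, (0, 0, 1, 1)),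
  (1229764173535182848, (0, 1, 0, 1)),
  (18764998443008, (0, 1, 1, 0)),
  (1229764173248860433, (1, 0, 0, 1)),
  (18764712120593, (1, 0, 1, 0)),
  (286331153, (1, 1, 0, 0))]

theorem T_L2_0_eq : T_L2_0 = L2.map (fun n => (pk 0 n, n)) := by
  decide +kernel

/-- A table of packed patterns. -/
def T_L1_0 : List (ℕ × Pat) := [(1229764173248856064, (0, 0, 0, 1)),
  (18764712116224, (0, 0, 1, 0)),
  (286326784, (0, 1, 0, 0)),
  (4369, (1, 0, 0, 0))]

theorem T_L1_0_eq : T_L1_0 = L1.map (fun n => (pk 0 n, n)) := by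
  decide +kernel

/-- A table of packed patterns. -/
def T_L6_1 : List (ℕ × Pat) := [(2459002917951119904, (0, 2, 2, 2)),
  (2454780728874967569, (1, 1, 2, 2)),
  (2387225703656530209, (1, 2, 1, 2)),
  (1306345300161532449, (1, 2, 2, 1)),
  (2450558539798815234, (2, 0, 2, 2)),
  (2383003514580377874, (2, 1, 1, 2)),
  (1302123111085380114, (2, 1, 2, 1)),
  (2315448489361940514, (2, 2, 0, 2)),
  (1234568085866942754, (2, 2, 1, 1)),
  (153687682371944994, (2, 2, 2, 0))]

theorem T_L6_1_eq : T_L6_1 = L6.map (fun n => (pk 1 n, n)) := by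
  decide +kernel

/-- A table of packed patterns. -/
def T_L6_2 : List (ℕ × Pat) := [(153720668255560224, (0, 2, 2, 2)),
  (1234568086151045649, (1, 1, 2, 2)),
  (1302139668184310049, (1, 2, 1, 2)),
  (1306361728662114849, (1, 2, 2, 1)),
  (2315415504046531074, (2, 0, 2, 2)),
  (2382987086079795474, (2, 1, 1, 2)),
  (2387209146557600274, (2, 1, 2, 1)),
  (2450558668113059874, (2, 2, 0, 2)),
  (2454780728590864674, (2, 2, 1, 1)),
  (2459002789068669474, (2, 2, 2, 0))]

theorem T_L6_2_eq : T_L6_2 = L6.map (fun n => (pk 2 n, n)) := by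
  decide +kernel

/-- A table of packed patterns. -/
def T_L6_3 : List (ℕ × Pat) := [(2315450550442926624, (0, 2, 2, 2)),
  (2383003514329698849, (1, 1, 2, 2)),
  (1234586704550175249, (1, 2, 1, 2)),
  (2387209146304962849, (1, 2, 2, 1)),
  (2450556478216471074, (2, 0, 2, 2)),
  (1302139668436947474, (2, 1, 1, 2)),
  (2454762110191735074, (2, 1, 2, 1)),
  (153722858657423874, (2, 2, 0, 2)),
  (1306345300412211474, (2, 2, 1, 1)),
  (2458967742166999074, (2, 2, 2, 0))]

theorem T_L6_3_eq : T_L6_3 = L6.map (fun n => (pk 3 n, n)) := by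
  decide +kernel

/-- A table of packed patterns. -/
def T_L6_4 : List (ℕ × Pat) := [(2450523492834222624, (0, 2, 2, 2)),
  (1302123111338025249, (1, 1, 2, 2)),
  (2382987086330466849, (1, 2, 1, 2)),
  (2454762109907640849, (1, 2, 2, 1)),
  (153722729841827874, (2, 0, 2, 2)),
  (1234586704834269474, (2, 1, 1, 2)),
  (1306361728411443474, (2, 1, 2, 1)),
  (2315450679826711074, (2, 2, 0, 2)),
  (2387225703403885074, (2, 2, 1, 1)),
  (2459000726981059074, (2, 2, 2, 0))]

theorem T_L6_4_eq : T_L6_4 = L6.map (fun n => (pk 4 n, n)) := by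
  decide +kernel

/-- A table of packed patterns. -/
def T_L5_1 : List (ℕ × Pat) := [(2454499249603224080, (0, 1, 2, 2)),
  (2386944224384786720, (0, 2, 1, 2)),
  (1306063820889788960, (0, 2, 2, 1)),
  (2450277060527071745, (1, 0, 2, 2)),
  (2382722035308634385, (1, 1, 1, 2)),
  (1301841631813636625, (1, 1, 2, 1)),
  (2315167010090197025, (1, 2, 0, 2)),
  (1234286606595199265, (1, 2, 1, 1)),
  (153406203100201505, (1, 2, 2, 0)),
  (2378499846232482050, (2, 0, 1, 2)),
  (1297619442737484290, (2, 0, 2, 1)),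
  (2310944821014044690, (2, 1, 0, 2)),
  (1230064417519046930, (2, 1, 1, 1)),
  (149184014024049170, (2, 1, 2, 0)),
  (1162509392300609570, (2, 2, 0, 1)),
  (81628988805611810, (2, 2, 1, 0))]

theorem T_L5_1_eq : T_L5_1 = L5.map (fun n => (pk 1 n, n)) := by
  decide +kernel

theorem mem_map {L : List Pat} {i : Fin 5} {n : Pat} (h : n ∈ L) :
    (pk i n, n) ∈ L.map (fun n => (pk i n, n)) :=
  List.mem_map.2 ⟨n, h, rfl⟩

/-- A zero count. -/
def hz (n : Pat) : Bool := n.1 == 0 || n.2.1 == 0 || n.2.2.1 == 0 || n.2.2.2 == 0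

/-- The conclusion for `w = 26`. -/
def post26 (n0 n1 n2 n3 n4 : Pat) : Bool :=
  (os n2 == os n0 + os n1 && os n3 == os n0 + F4.w * os n1 && os n4 == os n0 + F4.v * os n1) &&
    !(hz n1 && hz n2) && !(hz n1 && hz n3) && !(hz n1 && hz n4) && !(hz n2 && hz n3) &&
      !(hz n2 && hz n4) && !(hz n3 && hz n4)

/-- The conclusion for `w = 25`, all full classes. -/
def post25 (n0 n1 n2 n3 n4 : Pat) : Bool :=
  !(hz n1 && hz n2) && !(hz n1 && hz n3) && !(hz n1 && hz n4) && !(hz n2 && hz n3) &&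
      !(hz n2 && hz n4) && !(hz n3 && hz n4)

/-- The conclusion for `w = 25`, three full classes. -/
def post25' (n0 n1 n2 n3 n4 : Pat) : Bool :=
  !(hz n2 && hz n3) && !(hz n2 && hz n4) && !(hz n3 && hz n4)

theorem chk26 : chk T_L2_0 T_L6_1 T_L6_2 T_L6_3 T_L6_4 post26 = true := by
  decide +kernel

theorem chk25B : chk T_L1_0 T_L6_1 T_L6_2 T_L6_3 T_L6_4 post25 = true := by
  decide +kernel

theorem chk25A : chk T_L2_0 T_L5_1 T_L6_2 T_L6_3 T_L6_4 post25' = true := by
  decide +kernel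

/-- The check for a line class with three classes with two segments of three points. -/
def chkZ : Bool :=
  L33.all fun n2 => L33.all fun n3 => L33.all fun n4 =>
    ([F4.o, F4.i, F4.w, F4.v].any fun s => [F4.o, F4.i, F4.w, F4.v].any fun t =>
      Nat.blt 7 (ev n2 (s + t) + ev n3 (s + F4.w * t) + ev n4 (s + F4.v * t))) ||
      (os n2 == F4.w * os n3 && os n4 == F4.v * os n3)

theorem chkZ_true : chkZ = true := by
  decide +kernel

end Pool.Agent.Lib.MP_4dc748_co.AB
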