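import Pool.Agent.Lib.MP_4dc748_co.AB.Flag

/-!
# The standard position is impossible; change of coordinates
-/

set_option autoImplicit false

namespace Pool.Agent.Lib.MP_4dc748_co.AB

open Pool.Agent.Lib.MP_4dc748_co.TA Pool.Agent.Lib.MP_4dc748_co.RS Matrix

variable {K : Fin 21 → Finset (F4 × F4)} {c : Fin 21}

theorem L33_perm : ∀ n ∈ L33, ∀ e : F4, e ≠ 0 → pat (fun x => ev n (e * x)) ∈ L33 := by
  decide +kernel

theorem row5_mem (h : Std K c) (i : Fin 5) (hi : (row 5).p i ∈ S6 c) : pat ((row 5).f K i) ∈ L33 := by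
  have h50 : On 5 0 := by decide +kernel
  have h5n : (5 : Fin 21) ≠ 0 := by decide
  have he : F4.frob ((row 5).e i) ≠ 0 := map_ne ((row 5).e_ne (row_ok 5) i)
  have h1 := h.mem_L33 hi h50 (row_mem 5 h5n i)
  have h2 := L33_perm _ h1 _ he
  have h3 : (row 5).f K i = fun x => ev (pat (fun x => cnt K 5 ((row 5).p i) x))
      (F4.frob ((row 5).e i) * x) := by
    funext x
    rw [ev_pat, Row.f_eq, row_a 5 h5n]
  rw [h3]
  exact h2

theorem S6_234 : ∀ c : Fin 21, c = 5 ∨ c = 6 → (row 5).p 2 ∈ S6 c ∧ (row 5).p 3 ∈ S6 c ∧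
    (row 5).p 4 ∈ S6 c := by
  decide +kernel

theorem on_dot {a p : Fin 21} : vec a ⬝ᵥ vec p = 0 ↔ On a p := Iff.rfl

theorem Std.false (h : Std K c) : False := by
  have h50 : On 5 0 := by decide +kernel
  have h5n : (5 : Fin 21) ≠ 0 := by decide
  have hS := S6_234 c h.hc
  have t1 : tot ((row 5).f K) 1 = 2 := by
    rw [tot_eq]
    change (K 1).card = 2
    rw [h.sz 1 (by decide), if_pos (by decide +kernel), if_neg]
    rcases h.hc with rfl | rfl <;> decide
  obtain ⟨s2, s4, s1⟩ := lineZ (h.oa 5) t1 (row5_mem h 2 hS.1) (row5_mem h 3 hS.2.1)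
    (row5_mem h 4 hS.2.2)
  -- the labels
  have l1 := Row.lab_Dsum (row_ok 5) K 1
  have l2 := Row.lab_Dsum (row_ok 5) K 2
  have l3 := Row.lab_Dsum (row_ok 5) K 3
  have l4 := Row.lab_Dsum (row_ok 5) K 4
  rw [s2] at l2
  rw [s4] at l4
  change lab 5 1 (Dsum K 1) = F4.frob 1 * os (pat ((row 5).f K 1)) at l1
  change lab 5 2 (Dsum K 2) = F4.frob F4.i * (F4.w * os (pat ((row 5).f K 3))) at l2
  change lab 5 3 (Dsum K 3) = F4.frob F4.w * os (pat ((row 5).f K 3)) at l3
  change lab 5 4 (Dsum K 4) = F4.frob F4.v * (F4.v * os (pat ((row 5).f K 3))) at l4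
  -- the section lemma
  have hg : ∀ a : Fin 21, ∃ g : Fin 3 → F4, Gd a → ¬ On a c → ∀ p, On a p →
      lab a p (Dsum K p) = g ⬝ᵥ (F4.frob ∘ vec p) := by
    intro a
    by_cases ha : Gd a ∧ ¬ On a c
    · obtain ⟨g, hg⟩ := h.section_g ha.1 ha.2
      exact ⟨g, fun _ _ => hg⟩
    · exact ⟨0, fun h1 h2 => absurd ⟨h1, h2⟩ ha⟩
  choose g hg using hg
  have hline0 : ∀ a : Fin 21, ¬ (vec a ⬝ᵥ vec 1 = 0 ∧ vec a ⬝ᵥ vec 5 = 0) → a ≠ 0 := by
    decide +kernel
  have key := section_sum (z := vec 0) (q := vec 1) (r := vec 5) (P0 := vec c)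
    (D := fun p => bpt p (Dsum K p)) (g := g) (s := 5)
    (fun a p h1 h2 h3 h4 => hg a ⟨h1, hline0 a h3⟩ h2 p h4)
    (by decide +kernel) (by decide +kernel) (by decide +kernel)
    (by rcases h.hc with rfl | rfl <;> decide +kernel) (by decide +kernel)
  have hsum : ∀ G : Fin 21 → F4, (∑ p : Fin 21, if on 5 p = true then
      det3 (vec 0) (vec 5) (vec p) * G p else 0) = G 1 + G 2 + G 3 + G 4 := by
    intro G
    have h1 : ∀ p : Fin 21, (if on 5 p = true then det3 (vec 0) (vec 5) (vec p) * G p else 0) =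
        if p ∈ ({1, 2, 3, 4} : Finset (Fin 21)) then G p else 0 := by
      intro p
      have h2 : (p ∈ ({1, 2, 3, 4} : Finset (Fin 21)) → on 5 p = true ∧ det3 (vec 0) (vec 5) (vec p) = 1) ∧
          (p ∉ ({1, 2, 3, 4} : Finset (Fin 21)) → on 5 p = true → det3 (vec 0) (vec 5) (vec p) = 0) := by
        revert p
        decide +kernel
      by_cases hp : p ∈ ({1, 2, 3, 4} : Finset (Fin 21))
      · rw [if_pos hp, if_pos (h2.1 hp).1, (h2.1 hp).2, one_mul]
      · rw [if_neg hp]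
        by_cases ho : on 5 p = true
        · rw [if_pos ho, h2.2 hp ho, zero_mul]
        · rw [if_neg ho]
    rw [Finset.sum_congr rfl (fun p _ => h1 p), Finset.sum_ite_mem, Finset.univ_inter,
      Finset.sum_insert (by decide), Finset.sum_insert (by decide), Finset.sum_insert (by decide),
      Finset.sum_singleton]
    ring
  rw [hsum] at key
  change lab 5 1 (Dsum K 1) + lab 5 2 (Dsum K 2) + lab 5 3 (Dsum K 3) + lab 5 4 (Dsum K 4) = 0 at key
  rw [l1, l2, l3, l4] at key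
  apply s1
  generalize os (pat ((row 5).f K 1)) = x at key ⊢
  generalize os (pat ((row 5).f K 3)) = y at key
  revert x y
  decide

end Pool.Agent.Lib.MP_4dc748_co.AB
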