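import Pool.Agent.Lib.MP_4dc748_co.AB.Std

/-!
# Counting zero counts and squares in the standard position
-/

set_option autoImplicit false

namespace Pool.Agent.Lib.MP_4dc748_co.AB

open Pool.Agent.Lib.MP_4dc748_co.TA Pool.Agent.Lib.MP_4dc748_co.RS Matrix

variable {K : Fin 21 → Finset (F4 × F4)} {c : Fin 21}

/-- Some count is zero. -/
def Zc (K : Fin 21 → Finset (F4 × F4)) (a p : Fin 21) : Prop := ∃ x, cnt K a p x = 0

instance (K : Fin 21 → Finset (F4 × F4)) (a p : Fin 21) : Decidable (Zc K a p) :=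
  inferInstanceAs (Decidable (∃ _, _))

/-- The sum of the squares of the counts. -/
def sq (K : Fin 21 → Finset (F4 × F4)) (a p : Fin 21) : ℕ := ∑ x : F4, cnt K a p x * cnt K a p x

theorem hz_row {a : Fin 21} (ha : a ≠ 0) (i : Fin 5) :
    hz (pat ((row a).f K i)) = true ↔ Zc K a ((row a).p i) := by
  have he : F4.frob ((row a).e i) ≠ 0 := map_ne ((row a).e_ne (row_ok a) i)
  rw [hz_iff]
  unfold Zc
  constructor
  · rintro ⟨x, hx⟩
    rw [Row.f_eq, row_a a ha] at hx
    exact ⟨_, hx⟩
  · rintro ⟨x, hx⟩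
    refine ⟨(F4.frob ((row a).e i))⁻¹ * x, ?_⟩
    rw [Row.f_eq, row_a a ha, mul_inv_cancel_left₀ he]
    exact hx

theorem sq_row {a : Fin 21} (ha : a ≠ 0) (i : Fin 5) :
    sq K a ((row a).p i) = ∑ x : F4, (row a).f K i x * (row a).f K i x := by
  have he : F4.frob ((row a).e i) ≠ 0 := map_ne ((row a).e_ne (row_ok a) i)
  simp only [Row.f_eq, row_a a ha]
  rw [sum_mul_left he (fun x => cnt K a ((row a).p i) x * cnt K a ((row a).p i) x)]
  rfl

/-- At most one class with six points on a good line class has a zero count. -/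
theorem Std.line_one (h : Std K c) {a : Fin 21} (ha : Gd a) :
    ((S6 c).filter (fun p => On a p ∧ Zc K a p)).card ≤ 1 := by
  rw [Finset.card_le_one]
  intro p hp q hq
  rw [Finset.mem_filter] at hp hq
  obtain ⟨i, hi⟩ := row_ex a p ha.2 hp.2.1
  obtain ⟨j, hj⟩ := row_ex a q ha.2 hq.2.1
  by_contra hne
  have hij : i ≠ j := by
    rintro rfl
    exact hne (hi.symm.trans hj)
  exact h.excl ha i j hij (hi ▸ hp.1) (hj ▸ hq.1) ((hz_row ha.2 i).2 (hi ▸ hp.2.2))
    ((hz_row ha.2 j).2 (hj ▸ hq.2.2))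

/-- Good line classes: squares. -/
theorem Std.sq_good (h : Std K c) {a p : Fin 21} (ha : Gd a) (hp : p ∈ S6 c) (hap : On a p) :
    sq K a p = 10 + 2 * (if Zc K a p then 1 else 0) := by
  obtain ⟨i, rfl⟩ := row_ex a p ha.2 hap
  have hoa := h.oa a
  have hb := oa_bound hoa i
  obtain ⟨o0, o1, o2, o3, o4, n0, n1, n2, n3, n4⟩ := row_on a ha
  have t0 : tot ((row a).f K) 0 = (K (row a).p0).card := tot_eq 0
  have t1 : tot ((row a).f K) 1 = (K (row a).p1).card := tot_eq 1
  have t2 : tot ((row a).f K) 2 = (K (row a).p2).card := tot_eq 2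
  have t3 : tot ((row a).f K) 3 = (K (row a).p3).card := tot_eq 3
  have t4 : tot ((row a).f K) 4 = (K (row a).p4).card := tot_eq 4
  have ti : tot ((row a).f K) i = 6 := by
    rw [tot_eq]
    exact h.six hp
  rw [h.sz _ n0, if_pos o0] at t0
  rw [h.sz _ n1, if_neg o1] at t1
  rw [h.sz _ n2, if_neg o2] at t2
  rw [h.sz _ n3, if_neg o3] at t3
  rw [h.sz _ n4, if_neg o4] at t4
  have hw : 25 ≤ tot ((row a).f K) 0 + tot ((row a).f K) 1 + tot ((row a).f K) 2 +
      tot ((row a).f K) 3 + tot ((row a).f K) 4 := by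
    have inj := row_inj a ha.2
    rw [t0, t1, t2, t3, t4]
    by_cases e0 : (row a).p0 = c
    · have d1 : (row a).p1 ≠ c := fun e => absurd (inj 1 0 (e.trans e0.symm)) (by decide)
      have d2 : (row a).p2 ≠ c := fun e => absurd (inj 2 0 (e.trans e0.symm)) (by decide)
      have d3 : (row a).p3 ≠ c := fun e => absurd (inj 3 0 (e.trans e0.symm)) (by decide)
      have d4 : (row a).p4 ≠ c := fun e => absurd (inj 4 0 (e.trans e0.symm)) (by decide)
      rw [if_pos e0, if_neg d1, if_neg d2, if_neg d3, if_neg d4]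
    · rw [if_neg e0]
      by_cases e1 : (row a).p1 = c
      · have d2 : (row a).p2 ≠ c := fun e => absurd (inj 2 1 (e.trans e1.symm)) (by decide)
        have d3 : (row a).p3 ≠ c := fun e => absurd (inj 3 1 (e.trans e1.symm)) (by decide)
        have d4 : (row a).p4 ≠ c := fun e => absurd (inj 4 1 (e.trans e1.symm)) (by decide)
        rw [if_pos e1, if_neg d2, if_neg d3, if_neg d4]
      · rw [if_neg e1]
        by_cases e2 : (row a).p2 = c
        · have d3 : (row a).p3 ≠ c := fun e => absurd (inj 3 2 (e.trans e2.symm)) (by decide)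
          have d4 : (row a).p4 ≠ c := fun e => absurd (inj 4 2 (e.trans e2.symm)) (by decide)
          rw [if_pos e2, if_neg d3, if_neg d4]
        · rw [if_neg e2]
          by_cases e3 : (row a).p3 = c
          · have d4 : (row a).p4 ≠ c := fun e => absurd (inj 4 3 (e.trans e3.symm)) (by decide)
            rw [if_pos e3, if_neg d4]
          · rw [if_neg e3]
            split_ifs <;> omega
  have b0 := hb F4.o
  have b1 := hb F4.i
  have b2 := hb F4.w
  have b3 := hb F4.v
  have hm : pat ((row a).f K i) ∈ L6 := mem_L6 ti (by omega) (by omega) (by omega) (by omega)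
  have hs := sq_L6 _ hm
  rw [sq_row ha.2, sum_F4]
  simp only [hz_row ha.2 i] at hs
  exact hs

/-- Line classes through Z: at most three points in each segment. -/
theorem Std.sq_Z (h : Std K c) {a p : Fin 21} (ha : On a 0) (hp : p ∈ S6 c) (hap : On a p) :
    (pat (fun x => cnt K a p x) ∈ L33 ∧ sq K a p = 18) ∨ sq K a p ≤ 14 := by
  have ha0 := on_zero_ne a ha
  have hp' := mem_S6.1 hp
  obtain ⟨i, hi⟩ := row_ex a p ha0 hap
  have hoa := h.oa a
  have hb := oa_bound hoa i
  obtain ⟨e0, o1, o2, o3, o4, n1, n2, n3, n4⟩ := row_onZ a ha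
  have t0 : tot ((row a).f K) 0 = (K (row a).p0).card := tot_eq 0
  have t1 : tot ((row a).f K) 1 = (K (row a).p1).card := tot_eq 1
  have t2 : tot ((row a).f K) 2 = (K (row a).p2).card := tot_eq 2
  have t3 : tot ((row a).f K) 3 = (K (row a).p3).card := tot_eq 3
  have t4 : tot ((row a).f K) 4 = (K (row a).p4).card := tot_eq 4
  have ti : tot ((row a).f K) i = 6 := by
    rw [tot_eq, hi]
    exact h.six hp
  rw [e0, h.z0] at t0
  rw [h.sz _ n1, if_pos o1] at t1
  rw [h.sz _ n2, if_neg o2] at t2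
  rw [h.sz _ n3, if_neg o3] at t3
  rw [h.sz _ n4, if_neg o4] at t4
  have hw : 19 ≤ tot ((row a).f K) 0 + tot ((row a).f K) 1 + tot ((row a).f K) 2 +
      tot ((row a).f K) 3 + tot ((row a).f K) 4 := by
    have inj := row_inj a ha0
    rw [t0, t1, t2, t3, t4]
    by_cases e1 : (row a).p1 = c
    · have d2 : (row a).p2 ≠ c := fun e => absurd (inj 2 1 (e.trans e1.symm)) (by decide)
      have d3 : (row a).p3 ≠ c := fun e => absurd (inj 3 1 (e.trans e1.symm)) (by decide)
      have d4 : (row a).p4 ≠ c := fun e => absurd (inj 4 1 (e.trans e1.symm)) (by decide)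
      rw [if_pos e1, if_neg d2, if_neg d3, if_neg d4]
    · rw [if_neg e1]
      by_cases e2 : (row a).p2 = c
      · have d3 : (row a).p3 ≠ c := fun e => absurd (inj 3 2 (e.trans e2.symm)) (by decide)
        have d4 : (row a).p4 ≠ c := fun e => absurd (inj 4 2 (e.trans e2.symm)) (by decide)
        rw [if_pos e2, if_neg d3, if_neg d4]
      · rw [if_neg e2]
        by_cases e3 : (row a).p3 = c
        · have d4 : (row a).p4 ≠ c := fun e => absurd (inj 4 3 (e.trans e3.symm)) (by decide)
          rw [if_pos e3, if_neg d4]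
        · rw [if_neg e3]
          split_ifs <;> omega
  have hle : ∀ x, (row a).f K i x ≤ 3 := by
    intro x
    have := hb x
    omega
  have he : F4.frob ((row a).e i) ≠ 0 := map_ne ((row a).e_ne (row_ok a) i)
  have hle' : ∀ x, cnt K a p x ≤ 3 := by
    intro x
    have h1 := hle ((F4.frob ((row a).e i))⁻¹ * x)
    rw [Row.f_eq, row_a a ha0, mul_inv_cancel_left₀ he, hi] at h1
    exact h1
  have hsum : cnt K a p F4.o + cnt K a p F4.i + cnt K a p F4.w + cnt K a p F4.v = 6 := by
    rw [← sum_F4, sum_cnt]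
    exact h.six hp
  unfold sq
  rw [sum_F4]
  exact sq_six hsum (hle' _) (hle' _) (hle' _) (hle' _)

theorem dir_count : ∀ (p : Fin 21) (d : F4 × F4),
    (Finset.univ.filter (fun a : Fin 21 => On a p ∧ lab a p d = 0)).card = if d = 0 then 5 else 1 := by
  decide +kernel

theorem lab_eq_iff (a p : Fin 21) (t t' : F4 × F4) : lab a p t = lab a p t' ↔ lab a p (t + t') = 0 := by
  rw [lab_add, CharTwo.add_eq_zero]

theorem pair_eq_iff (t t' : F4 × F4) : t = t' ↔ t + t' = 0 := by
  constructor
  · rintro rfl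
    exact Prod.ext (F4.add_self _) (F4.add_self _)
  · intro h
    have h1 := congrArg Prod.fst h
    have h2 := congrArg Prod.snd h
    exact Prod.ext (CharTwo.add_eq_zero.1 h1) (CharTwo.add_eq_zero.1 h2)

theorem sq_eq (K : Fin 21 → Finset (F4 × F4)) (a p : Fin 21) :
    sq K a p = ∑ t ∈ K p, ∑ t' ∈ K p, if lab a p t = lab a p t' then 1 else 0 := by
  unfold sq cnt
  have h1 : ∀ x : F4, ((K p).filter (fun t => lab a p t = x)).card *
      ((K p).filter (fun t => lab a p t = x)).card =
      ∑ t ∈ K p, if lab a p t = x then ((K p).filter (fun t' => lab a p t' = x)).card else 0 := by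
    intro x
    rw [← Finset.sum_filter, Finset.sum_const, smul_eq_mul]
  simp only [h1]
  rw [Finset.sum_comm]
  refine Finset.sum_congr rfl fun t _ => ?_
  rw [Finset.sum_ite_eq Finset.univ (lab a p t)
    (fun x => ((K p).filter (fun t' => lab a p t' = x)).card), if_pos (Finset.mem_univ _),
    Finset.card_filter]
  refine Finset.sum_congr rfl fun t' _ => ?_
  by_cases h : lab a p t' = lab a p t
  · rw [if_pos h, if_pos h.symm]
  · rw [if_neg h, if_neg (fun e => h e.symm)]

theorem pair_sum (K : Fin 21 → Finset (F4 × F4)) (p : Fin 21) :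
    ∑ a ∈ Finset.univ.filter (fun a : Fin 21 => On a p), sq K a p =
      (K p).card * (K p).card + 4 * (K p).card := by
  simp only [sq_eq]
  rw [Finset.sum_comm]
  have h1 : ∀ t ∈ K p, ∑ a ∈ Finset.univ.filter (fun a : Fin 21 => On a p),
      ∑ t' ∈ K p, (if lab a p t = lab a p t' then 1 else 0) = (K p).card + 4 := by
    intro t ht
    rw [Finset.sum_comm]
    have h2 : ∀ t' ∈ K p, ∑ a ∈ Finset.univ.filter (fun a : Fin 21 => On a p),
        (if lab a p t = lab a p t' then 1 else 0) = 1 + if t = t' then 4 else 0 := by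
      intro t' _
      rw [← Finset.card_filter, Finset.filter_filter]
      have h3 : (Finset.univ.filter (fun a : Fin 21 => On a p ∧ lab a p t = lab a p t')) =
          (Finset.univ.filter (fun a : Fin 21 => On a p ∧ lab a p (t + t') = 0)) := by
        refine Finset.filter_congr fun a _ => ?_
        rw [lab_eq_iff]
      rw [h3, dir_count]
      by_cases h4 : t = t'
      · rw [if_pos ((pair_eq_iff t t').1 h4), if_pos h4]
      · rw [if_neg (fun e => h4 ((pair_eq_iff t t').2 e)), if_neg h4]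
    rw [Finset.sum_congr rfl h2, Finset.sum_add_distrib, Finset.sum_const, smul_eq_mul, mul_one,
      Finset.sum_ite_eq, if_pos ht]
  rw [Finset.sum_congr rfl h1, Finset.sum_const, smul_eq_mul]
  ring

theorem lines_split : ∀ p : Fin 21, p ≠ 0 → ¬ On 0 p → ∃ z : Fin 21, On z 0 ∧ On z p ∧
    z ∉ Finset.univ.filter (fun a : Fin 21 => Gd a ∧ On a p) ∧
    Finset.univ.filter (fun a : Fin 21 => On a p) =
      insert z (Finset.univ.filter (fun a : Fin 21 => Gd a ∧ On a p)) ∧
    (Finset.univ.filter (fun a : Fin 21 => Gd a ∧ On a p)).card = 4 := by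
  decide +kernel

/-- The number of good line classes with a zero count at p. -/
def kk (K : Fin 21 → Finset (F4 × F4)) (p : Fin 21) : ℕ :=
  ∑ a ∈ Finset.univ.filter (fun a : Fin 21 => Gd a ∧ On a p), if Zc K a p then 1 else 0

theorem Std.class_k (h : Std K c) {p : Fin 21} (hp : p ∈ S6 c) : 1 ≤ kk K p ∧
    (kk K p ≤ 2 → ∃ z : Fin 21, On z 0 ∧ On z p ∧ pat (fun x => cnt K z p x) ∈ L33) := by
  have hp' := mem_S6.1 hp
  obtain ⟨z, hz0, hzp, hzn, hin, hc4⟩ := lines_split p hp'.1 hp'.2.1
  have h1 := pair_sum K p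
  rw [hin, Finset.sum_insert hzn, h.six hp] at h1
  have h2 : ∑ a ∈ Finset.univ.filter (fun a : Fin 21 => Gd a ∧ On a p), sq K a p = 40 + 2 * kk K p := by
    unfold kk
    rw [Finset.mul_sum]
    have h3 : ∑ a ∈ Finset.univ.filter (fun a : Fin 21 => Gd a ∧ On a p), sq K a p =
        ∑ a ∈ Finset.univ.filter (fun a : Fin 21 => Gd a ∧ On a p),
          (10 + 2 * (if Zc K a p then 1 else 0)) := by
      refine Finset.sum_congr rfl fun a ha => ?_
      rw [Finset.mem_filter] at ha
      exact h.sq_good ha.2.1 hp ha.2.2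
    rw [h3, Finset.sum_add_distrib, Finset.sum_const, hc4]
    rfl
  rw [h2] at h1
  rcases h.sq_Z hz0 hp hzp with ⟨h3, h4⟩ | h3
  · exact ⟨by omega, fun _ => ⟨z, hz0, hzp, h3⟩⟩
  · exact ⟨by omega, fun h4 => by omega⟩

theorem card_S6 : 14 ≤ (S6 5).card ∧ 14 ≤ (S6 6).card := by
  decide +kernel

theorem card_good : (Finset.univ.filter (fun a : Fin 21 => Gd a)).card = 15 := by
  decide +kernel

theorem Std.sum_k (h : Std K c) : ∑ p ∈ S6 c, kk K p ≤ 15 := by
  unfold kk
  have h1 : ∑ p ∈ S6 c, ∑ a ∈ Finset.univ.filter (fun a : Fin 21 => Gd a ∧ On a p),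
      (if Zc K a p then 1 else 0) =
      ∑ a ∈ Finset.univ.filter (fun a : Fin 21 => Gd a),
        ((S6 c).filter (fun p => On a p ∧ Zc K a p)).card := by
    have h2 : ∀ p : Fin 21, ∑ a ∈ Finset.univ.filter (fun a : Fin 21 => Gd a ∧ On a p),
        (if Zc K a p then 1 else 0) = ∑ a ∈ Finset.univ.filter (fun a : Fin 21 => Gd a),
          (if On a p ∧ Zc K a p then 1 else 0) := by
      intro p
      rw [← Finset.card_filter, ← Finset.card_filter, Finset.filter_filter, Finset.filter_filter]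
      congr 1
      refine Finset.filter_congr fun a _ => ?_
      tauto
    rw [Finset.sum_congr rfl (fun p _ => h2 p), Finset.sum_comm]
    refine Finset.sum_congr rfl fun a _ => ?_
    rw [← Finset.card_filter]
  rw [h1]
  refine le_trans (Finset.sum_le_sum (g := fun _ => 1) fun a ha => ?_) ?_
  · exact h.line_one (Finset.mem_filter.1 ha).2
  · rw [Finset.sum_const, card_good]
    rfl

theorem Std.k_le (h : Std K c) {p : Fin 21} (hp : p ∈ S6 c) : kk K p ≤ 2 := by
  have h1 := h.sum_k
  have h2 : 14 ≤ (S6 c).card := by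
    rcases h.hc with rfl | rfl
    exacts [card_S6.1, card_S6.2]
  rw [← Finset.add_sum_erase _ _ hp] at h1
  have h3 : ((S6 c).erase p).card • 1 ≤ ∑ q ∈ (S6 c).erase p, kk K q :=
    Finset.card_nsmul_le_sum _ _ _ (fun q hq => (h.class_k (Finset.mem_of_mem_erase hq)).1)
  rw [Finset.card_erase_of_mem hp, smul_eq_mul, mul_one] at h3
  omega

theorem Std.mem_L33 (h : Std K c) {p z : Fin 21} (hp : p ∈ S6 c) (hz : On z 0) (hzp : On z p) :
    pat (fun x => cnt K z p x) ∈ L33 := by
  obtain ⟨z', h1, h2, h3⟩ := (h.class_k hp).2 (h.k_le hp)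
  have huniq : ∀ p z z' : Fin 21, p ≠ 0 → On z 0 → On z p → On z' 0 → On z' p → z = z' := by
    decide +kernel
  rw [huniq p z z' (mem_S6.1 hp).1 hz hzp h1 h2]
  exact h3

end Pool.Agent.Lib.MP_4dc748_co.AB
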