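import Pool.Agent.Lib.MP_4dc748_co.AB.Chk

/-!
# The line classes of a configuration: bounds, membership in the pattern lists, conclusions
-/

set_option autoImplicit false

namespace Pool.Agent.Lib.MP_4dc748_co.AB

open Pool.Agent.Lib.MP_4dc748_co.TA Pool.Agent.Lib.MP_4dc748_co.RS Matrix

/-- The sum of the counts of the function number `i`. -/
def tot (f : Fin 5 → F4 → ℕ) (i : Fin 5) : ℕ := f i F4.o + f i F4.i + f i F4.w + f i F4.v

theorem oa_bound {n : ℕ} {f : Fin 5 → F4 → ℕ} (hf : Oa n f) (i : Fin 5) (x : F4) :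
    4 * f i x + (tot f 0 + tot f 1 + tot f 2 + tot f 3 + tot f 4) ≤ 4 * n + tot f i := by
  have h00 : f 0 F4.o + f 1 F4.o + f 2 F4.o + f 3 F4.o + f 4 F4.o ≤ n := hf F4.o F4.o
  have h01 : f 0 F4.o + f 1 F4.i + f 2 F4.i + f 3 F4.w + f 4 F4.v ≤ n := hf F4.o F4.i
  have h02 : f 0 F4.o + f 1 F4.w + f 2 F4.w + f 3 F4.v + f 4 F4.i ≤ n := hf F4.o F4.w
  have h03 : f 0 F4.o + f 1 F4.v + f 2 F4.v + f 3 F4.i + f 4 F4.w ≤ n := hf F4.o F4.v
  have h10 : f 0 F4.i + f 1 F4.o + f 2 F4.i + f 3 F4.i + f 4 F4.i ≤ n := hf F4.i F4.o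
  have h11 : f 0 F4.i + f 1 F4.i + f 2 F4.o + f 3 F4.v + f 4 F4.w ≤ n := hf F4.i F4.i
  have h12 : f 0 F4.i + f 1 F4.w + f 2 F4.v + f 3 F4.w + f 4 F4.o ≤ n := hf F4.i F4.w
  have h13 : f 0 F4.i + f 1 F4.v + f 2 F4.w + f 3 F4.o + f 4 F4.v ≤ n := hf F4.i F4.v
  have h20 : f 0 F4.w + f 1 F4.o + f 2 F4.w + f 3 F4.w + f 4 F4.w ≤ n := hf F4.w F4.o
  have h21 : f 0 F4.w + f 1 F4.i + f 2 F4.v + f 3 F4.o + f 4 F4.i ≤ n := hf F4.w F4.i
  have h22 : f 0 F4.w + f 1 F4.w + f 2 F4.o + f 3 F4.i + f 4 F4.v ≤ n := hf F4.w F4.w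
  have h23 : f 0 F4.w + f 1 F4.v + f 2 F4.i + f 3 F4.v + f 4 F4.o ≤ n := hf F4.w F4.v
  have h30 : f 0 F4.v + f 1 F4.o + f 2 F4.v + f 3 F4.v + f 4 F4.v ≤ n := hf F4.v F4.o
  have h31 : f 0 F4.v + f 1 F4.i + f 2 F4.w + f 3 F4.i + f 4 F4.o ≤ n := hf F4.v F4.i
  have h32 : f 0 F4.v + f 1 F4.w + f 2 F4.i + f 3 F4.o + f 4 F4.w ≤ n := hf F4.v F4.w
  have h33 : f 0 F4.v + f 1 F4.v + f 2 F4.o + f 3 F4.w + f 4 F4.i ≤ n := hf F4.v F4.v
  unfold tot
  fin_cases i <;> cases x <;> simp only [Fin.zero_eta, Fin.mk_one, Fin.reduceFinMk] <;> omega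

theorem mem_L6 {a b c d : ℕ} (h : a + b + c + d = 6) (ha : a ≤ 2) (hb : b ≤ 2) (hc : c ≤ 2)
    (hd : d ≤ 2) : ((a, b, c, d) : Pat) ∈ L6 := by
  interval_cases a <;> interval_cases b <;> interval_cases c <;> interval_cases d <;>
    first | omega | decide

theorem mem_L5 {a b c d : ℕ} (h : a + b + c + d = 5) (ha : a ≤ 2) (hb : b ≤ 2) (hc : c ≤ 2)
    (hd : d ≤ 2) : ((a, b, c, d) : Pat) ∈ L5 := by
  interval_cases a <;> interval_cases b <;> interval_cases c <;> interval_cases d <;>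
    first | omega | decide

theorem mem_L2 {a b c d : ℕ} (h : a + b + c + d = 2) (ha : a ≤ 1) (hb : b ≤ 1) (hc : c ≤ 1)
    (hd : d ≤ 1) : ((a, b, c, d) : Pat) ∈ L2 := by
  interval_cases a <;> interval_cases b <;> interval_cases c <;> interval_cases d <;>
    first | omega | decide

theorem mem_L1 {a b c d : ℕ} (h : a + b + c + d = 1) : ((a, b, c, d) : Pat) ∈ L1 := by
  have ha : a ≤ 1 := by omega
  have hb : b ≤ 1 := by omega
  have hc : c ≤ 1 := by omega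
  have hd : d ≤ 1 := by omega
  interval_cases a <;> interval_cases b <;> interval_cases c <;> interval_cases d <;>
    first | omega | decide

/-- Six points in four segments, at most three in each: squares. -/
theorem sq_six {a b c d : ℕ} (h : a + b + c + d = 6) (ha : a ≤ 3) (hb : b ≤ 3) (hc : c ≤ 3)
    (hd : d ≤ 3) : ((a, b, c, d) : Pat) ∈ L33 ∧ a * a + b * b + c * c + d * d = 18 ∨
      a * a + b * b + c * c + d * d ≤ 14 := by
  interval_cases a <;> interval_cases b <;> interval_cases c <;> interval_cases d <;>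
    first | omega | (left; decide)

/-- Six points in four segments, at most two in each: squares. -/
theorem sq_L6 : ∀ n ∈ L6, n.1 * n.1 + n.2.1 * n.2.1 + n.2.2.1 * n.2.2.1 + n.2.2.2 * n.2.2.2 =
    10 + 2 * (if hz n = true then 1 else 0) := by
  decide

theorem hz_iff (g : F4 → ℕ) : hz (pat g) = true ↔ ∃ x, g x = 0 := by
  unfold hz pat
  simp only [Bool.or_eq_true, beq_iff_eq]
  constructor
  · rintro (((h | h) | h) | h)
    exacts [⟨_, h⟩, ⟨_, h⟩, ⟨_, h⟩, ⟨_, h⟩]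
  · rintro ⟨x, h⟩
    cases x
    exacts [Or.inl (Or.inl (Or.inl h)), Or.inl (Or.inl (Or.inr h)), Or.inl (Or.inr h), Or.inr h]

theorem mem_pk0 {L : List Pat} {T : List (ℕ × Pat)} {i : Fin 5} (hT : T = L.map (fun n => (pk i n, n)))
    {n : Pat} (h : n ∈ L) : (pk i n, n) ∈ T := by
  rw [hT]
  exact mem_map h

/-- The conclusion for the sizes 2, 6, 6, 6, 6. -/
theorem line26 {f : Fin 5 → F4 → ℕ} (hf : Oa 7 f) (h0 : tot f 0 = 2) (h1 : tot f 1 = 6)
    (h2 : tot f 2 = 6) (h3 : tot f 3 = 6) (h4 : tot f 4 = 6) :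
    post26 (pat (f 0)) (pat (f 1)) (pat (f 2)) (pat (f 3)) (pat (f 4)) = true := by
  have hb := oa_bound hf
  refine chk_sound chk26 hf (mem_pk0 T_L2_0_eq ?_) (mem_pk0 T_L6_1_eq ?_) (mem_pk0 T_L6_2_eq ?_)
    (mem_pk0 T_L6_3_eq ?_) (mem_pk0 T_L6_4_eq ?_)
  · refine mem_L2 h0 ?_ ?_ ?_ ?_
    · have := hb 0 F4.o; omega
    · have := hb 0 F4.i; omega
    · have := hb 0 F4.w; omega
    · have := hb 0 F4.v; omega
  · refine mem_L6 h1 ?_ ?_ ?_ ?_
    · have := hb 1 F4.o; omega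
    · have := hb 1 F4.i; omega
    · have := hb 1 F4.w; omega
    · have := hb 1 F4.v; omega
  · refine mem_L6 h2 ?_ ?_ ?_ ?_
    · have := hb 2 F4.o; omega
    · have := hb 2 F4.i; omega
    · have := hb 2 F4.w; omega
    · have := hb 2 F4.v; omega
  · refine mem_L6 h3 ?_ ?_ ?_ ?_
    · have := hb 3 F4.o; omega
    · have := hb 3 F4.i; omega
    · have := hb 3 F4.w; omega
    · have := hb 3 F4.v; omega
  · refine mem_L6 h4 ?_ ?_ ?_ ?_
    · have := hb 4 F4.o; omega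
    · have := hb 4 F4.i; omega
    · have := hb 4 F4.w; omega
    · have := hb 4 F4.v; omega

/-- The conclusion for the sizes 1, 6, 6, 6, 6. -/
theorem line25B {f : Fin 5 → F4 → ℕ} (hf : Oa 7 f) (h0 : tot f 0 = 1) (h1 : tot f 1 = 6)
    (h2 : tot f 2 = 6) (h3 : tot f 3 = 6) (h4 : tot f 4 = 6) :
    post25 (pat (f 0)) (pat (f 1)) (pat (f 2)) (pat (f 3)) (pat (f 4)) = true := by
  have hb := oa_bound hf
  refine chk_sound chk25B hf (mem_pk0 T_L1_0_eq ?_) (mem_pk0 T_L6_1_eq ?_) (mem_pk0 T_L6_2_eq ?_)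
    (mem_pk0 T_L6_3_eq ?_) (mem_pk0 T_L6_4_eq ?_)
  · exact mem_L1 h0
  · refine mem_L6 h1 ?_ ?_ ?_ ?_
    · have := hb 1 F4.o; omega
    · have := hb 1 F4.i; omega
    · have := hb 1 F4.w; omega
    · have := hb 1 F4.v; omega
  · refine mem_L6 h2 ?_ ?_ ?_ ?_
    · have := hb 2 F4.o; omega
    · have := hb 2 F4.i; omega
    · have := hb 2 F4.w; omega
    · have := hb 2 F4.v; omega
  · refine mem_L6 h3 ?_ ?_ ?_ ?_
    · have := hb 3 F4.o; omega
    · have := hb 3 F4.i; omega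
    · have := hb 3 F4.w; omega
    · have := hb 3 F4.v; omega
  · refine mem_L6 h4 ?_ ?_ ?_ ?_
    · have := hb 4 F4.o; omega
    · have := hb 4 F4.i; omega
    · have := hb 4 F4.w; omega
    · have := hb 4 F4.v; omega

/-- The conclusion for the sizes 2, 5, 6, 6, 6. -/
theorem line25A {f : Fin 5 → F4 → ℕ} (hf : Oa 7 f) (h0 : tot f 0 = 2) (h1 : tot f 1 = 5)
    (h2 : tot f 2 = 6) (h3 : tot f 3 = 6) (h4 : tot f 4 = 6) :
    post25' (pat (f 0)) (pat (f 1)) (pat (f 2)) (pat (f 3)) (pat (f 4)) = true := by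
  have hb := oa_bound hf
  refine chk_sound chk25A hf (mem_pk0 T_L2_0_eq ?_) (mem_pk0 T_L5_1_eq ?_) (mem_pk0 T_L6_2_eq ?_)
    (mem_pk0 T_L6_3_eq ?_) (mem_pk0 T_L6_4_eq ?_)
  · refine mem_L2 h0 ?_ ?_ ?_ ?_
    · have := hb 0 F4.o; omega
    · have := hb 0 F4.i; omega
    · have := hb 0 F4.w; omega
    · have := hb 0 F4.v; omega
  · refine mem_L5 h1 ?_ ?_ ?_ ?_
    · have := hb 1 F4.o; omega
    · have := hb 1 F4.i; omega
    · have := hb 1 F4.w; omega
    · have := hb 1 F4.v; omega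
  · refine mem_L6 h2 ?_ ?_ ?_ ?_
    · have := hb 2 F4.o; omega
    · have := hb 2 F4.i; omega
    · have := hb 2 F4.w; omega
    · have := hb 2 F4.v; omega
  · refine mem_L6 h3 ?_ ?_ ?_ ?_
    · have := hb 3 F4.o; omega
    · have := hb 3 F4.i; omega
    · have := hb 3 F4.w; omega
    · have := hb 3 F4.v; omega
  · refine mem_L6 h4 ?_ ?_ ?_ ?_
    · have := hb 4 F4.o; omega
    · have := hb 4 F4.i; omega
    · have := hb 4 F4.w; omega
    · have := hb 4 F4.v; omega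

/-- The possible patterns with two points. -/
def L22 : List Pat := L2 ++ [(2, 0, 0, 0), (0, 2, 0, 0), (0, 0, 2, 0), (0, 0, 0, 2)]

theorem mem_L22 {a b c d : ℕ} (h : a + b + c + d = 2) : ((a, b, c, d) : Pat) ∈ L22 := by
  have ha : a ≤ 2 := by omega
  have hb : b ≤ 2 := by omega
  have hc : c ≤ 2 := by omega
  have hd : d ≤ 2 := by omega
  interval_cases a <;> interval_cases b <;> interval_cases c <;> interval_cases d <;>
    first | omega | decide

/-- The check for a line class with an empty class, a class of size two and three classes with two segments of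
three points. -/
def chkZ2 : Bool :=
  L33.all fun n2 => L33.all fun n3 => L33.all fun n4 => L22.all fun n1 =>
    ([F4.o, F4.i, F4.w, F4.v].any fun s => [F4.o, F4.i, F4.w, F4.v].any fun t =>
      Nat.blt 7 (ev n1 t + ev n2 (s + t) + ev n3 (s + F4.w * t) + ev n4 (s + F4.v * t))) ||
      (os n2 == F4.w * os n3 && os n4 == F4.v * os n3 && !(os n1 == F4.o))

theorem chkZ2_true : chkZ2 = true := by
  decide +kernel

theorem all_F4 (l : F4) : l ∈ [F4.o, F4.i, F4.w, F4.v] := by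
  cases l <;> decide

theorem lineZ {f : Fin 5 → F4 → ℕ} (hf : Oa 7 f) (h1 : tot f 1 = 2)
    (h2 : pat (f 2) ∈ L33) (h3 : pat (f 3) ∈ L33) (h4 : pat (f 4) ∈ L33) :
    os (pat (f 2)) = F4.w * os (pat (f 3)) ∧ os (pat (f 4)) = F4.v * os (pat (f 3)) ∧
      os (pat (f 1)) ≠ F4.o := by
  have hc := chkZ2_true
  unfold chkZ2 at hc
  rw [List.all_eq_true] at hc
  have c2 := hc _ h2
  rw [List.all_eq_true] at c2
  have c3 := c2 _ h3
  rw [List.all_eq_true] at c3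
  have c4 := c3 _ h4
  rw [List.all_eq_true] at c4
  have c1 := c4 (pat (f 1)) (mem_L22 h1)
  rw [Bool.or_eq_true] at c1
  rcases c1 with c1 | c1
  · exfalso
    rw [List.any_eq_true] at c1
    obtain ⟨s, -, c1⟩ := c1
    rw [List.any_eq_true] at c1
    obtain ⟨t, -, c1⟩ := c1
    rw [ev_pat, ev_pat, ev_pat, ev_pat] at c1
    have h5 := hf s t
    have h6 : 7 < f 1 t + f 2 (s + t) + f 3 (s + F4.w * t) + f 4 (s + F4.v * t) := by
      simpa [Nat.blt_eq] using c1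
    omega
  · simpa [and_assoc] using c1

end Pool.Agent.Lib.MP_4dc748_co.AB
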