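import Pool.Agent.Lib.MP_4dc748_co.AB.Fin

/-!
# The class level patterns A and B do not come from arcs of T
-/

set_option autoImplicit false

namespace Pool.Agent.Lib.MP_4dc748_co.AB

open Pool.Agent.Lib.MP_4dc748_co.TA Pool.Agent.Lib.MP_4dc748_co.RS Matrix

/-- The matrix with the columns m1, m2, m3. -/
def cm (m1 m2 m3 : Fin 3 → F4) : Matrix (Fin 3) (Fin 3) F4 :=
  Matrix.of (fun i j => (![m1 i, m2 i, m3 i] : Fin 3 → F4) j)

theorem cm_mulVec (m1 m2 m3 x : Fin 3 → F4) :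
    cm m1 m2 m3 *ᵥ x = x 0 • m1 + x 1 • m2 + x 2 • m3 := by
  funext i
  simp only [cm, mulVec, dotProduct, Fin.sum_univ_three, Matrix.of_apply, Matrix.cons_val_zero,
    Matrix.cons_val_one, Matrix.cons_val, Pi.add_apply, Pi.smul_apply, smul_eq_mul]
  ring

/-- Change of coordinates. -/
theorem move {n : ℕ} {K : Fin 21 → Finset (F4 × F4)} (hK : LineBound F4.frob n K)
    {m1 m2 m3 : Fin 3 → F4} (hd : (cm m1 m2 m3).det ≠ 0) :
    ∃ K' : Fin 21 → Finset (F4 × F4), LineBound F4.frob n K' ∧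
      ∀ (q p : Fin 21) (e : F4), e ≠ 0 → cm m1 m2 m3 *ᵥ vec q = e • vec p → (K' q).card = (K p).card := by
  have hu : IsUnit (cm m1 m2 m3).det := isUnit_iff_ne_zero.2 hd
  have h1 : cm m1 m2 m3 * (cm m1 m2 m3)⁻¹ = 1 := Matrix.mul_nonsing_inv _ hu
  have h2 : (cm m1 m2 m3)⁻¹ * cm m1 m2 m3 = 1 := Matrix.nonsing_inv_mul _ hu
  refine ⟨act F4.frob (cm m1 m2 m3)⁻¹ 0 K, lineBound_act h1 h2 0 hK, fun q p e he hq => ?_⟩
  refine card_act h1 0 K (p := p) (q := q) (e := e⁻¹) (inv_ne_zero he) ?_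
  have h3 : (cm m1 m2 m3)⁻¹ *ᵥ (cm m1 m2 m3 *ᵥ vec q) = vec q := by
    rw [mulVec_mulVec, h2, one_mulVec]
  rw [hq, mulVec_smul] at h3
  rw [← h3, smul_smul, inv_mul_cancel₀ he, one_smul]

theorem det_aux : ∀ l Q : Fin 21, On l Q → ∀ R : Fin 21, On l R → Q ≠ R → ∀ Z : Fin 21, ¬ On l Z →
    vec Q 0 * vec R 1 * vec Z 2 + vec Q 0 * vec Z 1 * vec R 2 + vec R 0 * vec Q 1 * vec Z 2 +
      vec R 0 * vec Z 1 * vec Q 2 + vec Z 0 * vec Q 1 * vec R 2 + vec Z 0 * vec R 1 * vec Q 2 ≠ 0 := by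
  decide +kernel

theorem neg_F4 (x : F4) : -x = x := by
  cases x <;> rfl

theorem sub_F4 (x y : F4) : x - y = x + y := by
  rw [sub_eq_add_neg, neg_F4]

theorem det_cm {l Q R Z : Fin 21} (hQ : On l Q) (hR : On l R) (hQR : Q ≠ R) (hZ : ¬ On l Z)
    {x y : F4} (hx : x ≠ 0) (hy : y ≠ 0) : (cm (y • vec Q) (vec R) (x • vec Z)).det ≠ 0 := by
  have h := det_aux l Q hQ R hR hQR Z hZ
  have h1 : (cm (y • vec Q) (vec R) (x • vec Z)).det =
      (x * y) * (vec Q 0 * vec R 1 * vec Z 2 + vec Q 0 * vec Z 1 * vec R 2 + vec R 0 * vec Q 1 * vec Z 2 +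
      vec R 0 * vec Z 1 * vec Q 2 + vec Z 0 * vec Q 1 * vec R 2 + vec Z 0 * vec R 1 * vec Q 2) := by
    rw [det_fin_three]
    simp only [cm, Matrix.of_apply, Matrix.cons_val_zero, Matrix.cons_val_one, Matrix.cons_val,
      Pi.smul_apply, smul_eq_mul, sub_F4]
    ring
  rw [h1]
  exact mul_ne_zero (mul_ne_zero hx hy) h

theorem exists_R : ∀ l Q : Fin 21, On l Q → ∃ R : Fin 21, On l R ∧ Q ≠ R := by
  decide +kernel

theorem on_zero_iff : ∀ q : Fin 21, On 0 q ↔ vec q 2 = 0 := by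
  decide +kernel

/-- **No configuration.** -/
theorem no_AB {K : Fin 21 → Finset (F4 × F4)} (hK : LineBound F4.frob 7 K) {Z l0 P0 : Fin 21}
    (hl : vec l0 ⬝ᵥ vec Z ≠ 0) (hP : P0 ≠ Z) (hZ : (K Z).card = 0)
    (hs : ∀ p, p ≠ Z → (K p).card = (if vec l0 ⬝ᵥ vec p = 0 then 2 else 6) - (if p = P0 then 1 else 0)) :
    False := by
  -- coordinates
  obtain ⟨Q, x, y, c, hc, hx, hy, hQ, hPc⟩ : ∃ (Q : Fin 21) (x y : F4) (c : Fin 21), (c = 5 ∨ c = 6) ∧
      x ≠ 0 ∧ y ≠ 0 ∧ On l0 Q ∧ vec P0 = vec c 0 • (y • vec Q) + vec c 2 • (x • vec Z) ∧ vec c 1 = 0 := by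
    by_cases h : vec l0 ⬝ᵥ vec P0 = 0
    · refine ⟨P0, 1, 1, 5, Or.inl rfl, one_ne_zero, one_ne_zero, h, ?_, by decide +kernel⟩
      have h0 : vec 5 0 = 1 := by decide +kernel
      have h2 : vec 5 2 = 0 := by decide +kernel
      rw [h0, h2, one_smul, one_smul, zero_smul, add_zero]
    · set α := vec l0 ⬝ᵥ vec P0 with hα
      set β := vec l0 ⬝ᵥ vec Z with hβ
      have hv : β • vec P0 + α • vec Z ≠ 0 := by
        intro h1
        apply hP
        have h2 : vec P0 = (β⁻¹ * α) • vec Z := by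
          have h3 : β • vec P0 = α • vec Z := by
            funext k
            have h4 := congrFun h1 k
            exact CharTwo.add_eq_zero.1 h4
          rw [mul_smul, ← h3, smul_smul, inv_mul_cancel₀ hl, one_smul]
        exact (class_inj h2).1
      obtain ⟨Q, e, he, hQ⟩ := exists_class hv
      refine ⟨Q, β⁻¹ * α, β⁻¹ * e, 6, Or.inr rfl, mul_ne_zero (inv_ne_zero hl) h,
        mul_ne_zero (inv_ne_zero hl) he, ?_, ?_, by decide +kernel⟩
      · have h1 : vec l0 ⬝ᵥ (β • vec P0 + α • vec Z) = 0 := by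
          rw [dotProduct_add, dotProduct_smul, dotProduct_smul, ← hα, ← hβ, smul_eq_mul, smul_eq_mul,
            mul_comm α β]
          exact F4.add_self _
        rw [hQ, dotProduct_smul, smul_eq_mul] at h1
        exact (mul_eq_zero.1 h1).resolve_left he
      · have h0 : vec 6 0 = 1 := by decide +kernel
        have h2 : vec 6 2 = 1 := by decide +kernel
        rw [h0, h2, one_smul, one_smul, mul_smul, ← hQ, smul_add, smul_smul, inv_mul_cancel₀ hl,
          one_smul, add_assoc, mul_smul, ← smul_add]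
        have h3 : α • vec Z + α • vec Z = 0 := by
          funext k
          exact F4.add_self _
        rw [h3, smul_zero, add_zero]
  obtain ⟨hPc, hc1⟩ := hPc
  obtain ⟨R, hR, hQR⟩ := exists_R l0 Q hQ
  have hd := det_cm hQ hR hQR hl hx hy
  obtain ⟨K', hK', hcard⟩ := move hK hd
  have hu : IsUnit (cm (y • vec Q) (vec R) (x • vec Z)).det := isUnit_iff_ne_zero.2 hd
  have hinv : (cm (y • vec Q) (vec R) (x • vec Z))⁻¹ * cm (y • vec Q) (vec R) (x • vec Z) = 1 :=
    Matrix.nonsing_inv_mul _ hu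
  have hinj : ∀ {u v : Fin 3 → F4}, cm (y • vec Q) (vec R) (x • vec Z) *ᵥ u =
      cm (y • vec Q) (vec R) (x • vec Z) *ᵥ v → u = v := fun h => mulVec_inj hinv h
  have h0 : cm (y • vec Q) (vec R) (x • vec Z) *ᵥ vec 0 = x • vec Z := by
    rw [cm_mulVec]
    have h0 : vec 0 0 = 0 := by decide +kernel
    have h1 : vec 0 1 = 0 := by decide +kernel
    have h2 : vec 0 2 = 1 := by decide +kernel
    rw [h0, h1, h2, zero_smul, zero_smul, one_smul, zero_add, zero_add]
  have hPc' : cm (y • vec Q) (vec R) (x • vec Z) *ᵥ vec c = vec P0 := by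
    rw [cm_mulVec, hc1, zero_smul, add_zero, hPc]
  refine Std.false (K := K') (c := c) ⟨hK', hc, ?_, ?_⟩
  · rw [hcard 0 Z x hx h0, hZ]
  · intro q hq
    have hne : cm (y • vec Q) (vec R) (x • vec Z) *ᵥ vec q ≠ 0 := by
      intro h
      apply vec_ne_zero q
      apply hinj
      rw [h, mulVec_zero]
    obtain ⟨p, e, he, hp⟩ := exists_class hne
    have hpZ : p ≠ Z := by
      rintro rfl
      apply hq
      have h1 : vec q = (e * x⁻¹) • vec 0 := by
        apply hinj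
        rw [mulVec_smul, h0, hp, smul_smul, mul_assoc, inv_mul_cancel₀ hx, mul_one]
      exact (class_inj h1).1
    rw [hcard q p e he hp, hs p hpZ]
    have hon : (vec l0 ⬝ᵥ vec p = 0) ↔ On 0 q := by
      have h1 := congrArg (fun w => vec l0 ⬝ᵥ w) hp
      simp only [cm_mulVec, dotProduct_add, dotProduct_smul, smul_eq_mul] at h1
      have h2 : vec l0 ⬝ᵥ vec Q = 0 := hQ
      have h3 : vec l0 ⬝ᵥ vec R = 0 := hR
      rw [h2, h3, mul_zero, mul_zero, mul_zero, zero_add, zero_add] at h1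
      have h4 : On 0 q ↔ vec q 2 = 0 := on_zero_iff q
      rw [h4]
      constructor
      · intro h5
        rw [h5, mul_zero] at h1
        rcases mul_eq_zero.1 h1 with h6 | h6
        · exact h6
        · exact absurd h6 (mul_ne_zero hx hl)
      · intro h5
        rw [h5, zero_mul] at h1
        exact (mul_eq_zero.1 h1.symm).resolve_left he
    have hpc : p = P0 ↔ q = c := by
      constructor
      · rintro rfl
        have h1 : vec q = e • vec c := by
          apply hinj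
          rw [mulVec_smul, hPc', hp]
        exact (class_inj h1).1
      · rintro rfl
        rw [hPc'] at hp
        exact ((class_inj hp).1).symm
    simp only [hon, hpc]

end Pool.Agent.Lib.MP_4dc748_co.AB
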