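import Pool.Agent.Lib.MP_4dc748_co.AB.Act

/-!
# The orthogonal array of a line class

A row: a line class `a` with its five classes `p0, .., p4`; the labels of the line `(s, t)` at the five classes are,
up to scalars, `s`, `t`, `s + t`, `s + w t`, `s + v t`.
-/

set_option autoImplicit false

namespace Pool.Agent.Lib.MP_4dc748_co.AB

open Pool.Agent.Lib.MP_4dc748_co.TA Pool.Agent.Lib.MP_4dc748_co.RS Matrix

/-- A line class with its five classes and scalars. -/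
structure Row where
  /-- the line class -/
  a : Fin 21
  /-- a class -/
  p0 : Fin 21
  /-- a class -/
  p1 : Fin 21
  /-- a class -/
  p2 : Fin 21
  /-- a class -/
  p3 : Fin 21
  /-- a class -/
  p4 : Fin 21
  /-- a scalar -/
  e2 : F4
  /-- a scalar -/
  e3 : F4
  /-- a scalar -/
  e4 : F4

/-- Incidence of a line class and a class. -/
def On (a p : Fin 21) : Prop := vec a ⬝ᵥ vec p = 0

instance (a p : Fin 21) : Decidable (On a p) := inferInstanceAs (Decidable (_ = _))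

/-- The row is correct. -/
def Row.Ok (r : Row) : Prop :=
  (On r.a r.p0 ∧ On r.a r.p1 ∧ On r.a r.p2 ∧ On r.a r.p3 ∧ On r.a r.p4) ∧
  (r.p0 ≠ r.p1 ∧ r.p0 ≠ r.p2 ∧ r.p0 ≠ r.p3 ∧ r.p0 ≠ r.p4 ∧ r.p1 ≠ r.p2 ∧ r.p1 ≠ r.p3 ∧
    r.p1 ≠ r.p4 ∧ r.p2 ≠ r.p3 ∧ r.p2 ≠ r.p4 ∧ r.p3 ≠ r.p4) ∧
  (r.e2 ≠ 0 ∧ r.e3 ≠ 0 ∧ r.e4 ≠ 0) ∧
  (∀ k : Fin 3, vec r.p2 k = r.e2 * (vec r.p0 k + vec r.p1 k) ∧
    vec r.p3 k = r.e3 * (vec r.p0 k + F4.v * vec r.p1 k) ∧
    vec r.p4 k = r.e4 * (vec r.p0 k + F4.w * vec r.p1 k))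

instance (r : Row) : Decidable r.Ok := by
  unfold Row.Ok
  infer_instance

/-- The five functions of a row. -/
def Row.f (r : Row) (K : Fin 21 → Finset (F4 × F4)) (i : Fin 5) (x : F4) : ℕ :=
  match i with
  | 0 => cnt K r.a r.p0 x
  | 1 => cnt K r.a r.p1 x
  | 2 => cnt K r.a r.p2 (F4.frob r.e2 * x)
  | 3 => cnt K r.a r.p3 (F4.frob r.e3 * x)
  | 4 => cnt K r.a r.p4 (F4.frob r.e4 * x)

/-- The array condition. -/
def Oa (n : ℕ) (f : Fin 5 → F4 → ℕ) : Prop :=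
  ∀ s t : F4, f 0 s + f 1 t + f 2 (s + t) + f 3 (s + F4.w * t) + f 4 (s + F4.v * t) ≤ n

theorem exists_c_aux : ∀ p q : Fin 21, p ≠ q → ∃ c0 c1 c2 : F4,
    (c0 * F4.frob (vec p 0) + c1 * F4.frob (vec p 1) + c2 * F4.frob (vec p 2) = 1) ∧
    (c0 * F4.frob (vec q 0) + c1 * F4.frob (vec q 1) + c2 * F4.frob (vec q 2) = 0) := by
  decide +kernel

theorem exists_c {p q : Fin 21} (h : p ≠ q) : ∃ c : Fin 3 → F4,
    c ⬝ᵥ (F4.frob ∘ vec p) = 1 ∧ c ⬝ᵥ (F4.frob ∘ vec q) = 0 := by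
  obtain ⟨c0, c1, c2, h1, h2⟩ := exists_c_aux p q h
  refine ⟨![c0, c1, c2], ?_, ?_⟩
  · rw [← h1]
    simp [dotProduct, Fin.sum_univ_three]
  · rw [← h2]
    simp [dotProduct, Fin.sum_univ_three]

theorem sum_five_le {g : Fin 21 → ℕ} {p0 p1 p2 p3 p4 : Fin 21}
    (h : p0 ≠ p1 ∧ p0 ≠ p2 ∧ p0 ≠ p3 ∧ p0 ≠ p4 ∧ p1 ≠ p2 ∧ p1 ≠ p3 ∧ p1 ≠ p4 ∧ p2 ≠ p3 ∧ p2 ≠ p4 ∧
      p3 ≠ p4) : g p0 + g p1 + g p2 + g p3 + g p4 ≤ ∑ p, g p := by
  obtain ⟨h1, h2, h3, h4, h5, h6, h7, h8, h9, h10⟩ := h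
  have h11 : ∑ p ∈ ({p0, p1, p2, p3, p4} : Finset (Fin 21)), g p ≤ ∑ p, g p :=
    Finset.sum_le_sum_of_subset (Finset.subset_univ _)
  refine le_trans (le_of_eq ?_) h11
  rw [Finset.sum_insert (by simp [h1, h2, h3, h4]), Finset.sum_insert (by simp [h5, h6, h7]),
    Finset.sum_insert (by simp [h8, h9]), Finset.sum_insert (by simp [h10]), Finset.sum_singleton]
  ring

theorem Row.oa {r : Row} (hr : r.Ok) {n : ℕ} {K : Fin 21 → Finset (F4 × F4)}
    (hK : LineBound F4.frob n K) : Oa n (r.f K) := by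
  obtain ⟨⟨a0, a1, a2, a3, a4⟩, hd, ⟨he2, he3, he4⟩, hv⟩ := hr
  intro s t
  obtain ⟨c, hc1, hc2⟩ := exists_c hd.1
  obtain ⟨c', hc1', hc2'⟩ := exists_c hd.1.symm
  have key : ∀ (q : Fin 21) (e m : F4), (∀ k : Fin 3, vec q k = e * (vec r.p0 k + m * vec r.p1 k)) →
      (s • c + t • c') ⬝ᵥ (F4.frob ∘ vec q) = F4.frob e * (s + F4.frob m * t) := by
    intro q e m h
    have h1 : F4.frob ∘ vec q = F4.frob e • (F4.frob ∘ vec r.p0 + F4.frob m • (F4.frob ∘ vec r.p1)) := by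
      funext k
      simp only [Function.comp_apply, Pi.smul_apply, Pi.add_apply, smul_eq_mul]
      rw [h k, map_mul, map_add, map_mul]
    rw [h1, dotProduct_smul, dotProduct_add, dotProduct_smul, add_dotProduct, add_dotProduct,
      smul_dotProduct, smul_dotProduct, smul_dotProduct, smul_dotProduct, hc1, hc2, hc1', hc2']
    simp only [smul_eq_mul]
    ring
  have k0 : (s • c + t • c') ⬝ᵥ (F4.frob ∘ vec r.p0) = s := by
    rw [add_dotProduct, smul_dotProduct, smul_dotProduct, hc1, hc2']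
    simp
  have k1 : (s • c + t • c') ⬝ᵥ (F4.frob ∘ vec r.p1) = t := by
    rw [add_dotProduct, smul_dotProduct, smul_dotProduct, hc2, hc1']
    simp
  have k2 := key r.p2 r.e2 1 (fun k => by rw [(hv k).1, one_mul])
  have k3 := key r.p3 r.e3 F4.v (fun k => (hv k).2.1)
  have k4 := key r.p4 r.e4 F4.w (fun k => (hv k).2.2)
  rw [map_one, one_mul] at k2
  have e3 : F4.frob F4.v = F4.w := by decide
  have e4 : F4.frob F4.w = F4.v := by decide
  rw [e3] at k3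
  rw [e4] at k4
  unfold On at a0 a1 a2 a3 a4
  refine le_trans ?_ (hK r.a (s • c + t • c'))
  refine le_trans (le_of_eq ?_) (sum_five_le hd)
  rw [if_pos a0, if_pos a1, if_pos a2, if_pos a3, if_pos a4, k0, k1, k2, k3, k4]
  rfl

/-- The sum of the counts. -/
theorem sum_cnt (K : Fin 21 → Finset (F4 × F4)) (a p : Fin 21) :
    ∑ x : F4, cnt K a p x = (K p).card := by
  unfold cnt
  rw [Finset.card_eq_sum_card_fiberwise (f := fun t => lab a p t) (t := Finset.univ)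
    (fun _ _ => Finset.mem_coe.2 (Finset.mem_univ _))]

theorem sum_F4 (g : F4 → ℕ) : ∑ x : F4, g x = g F4.o + g F4.i + g F4.w + g F4.v := by
  have h : (Finset.univ : Finset F4) = {F4.o, F4.i, F4.w, F4.v} := by decide
  rw [h, Finset.sum_insert (by decide), Finset.sum_insert (by decide), Finset.sum_insert (by decide),
    Finset.sum_singleton]
  ring

theorem sum_mul_left {e : F4} (he : e ≠ 0) (g : F4 → ℕ) : ∑ x : F4, g (e * x) = ∑ x : F4, g x :=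
  Fintype.sum_bijective (fun x => e * x)
    ⟨fun x y h => mul_left_cancel₀ he h, fun y => ⟨e⁻¹ * y, mul_inv_cancel_left₀ he y⟩⟩ _ _
    (fun _ => rfl)

/-- The class number `i` of a row. -/
def Row.p (r : Row) (i : Fin 5) : Fin 21 :=
  match i with
  | 0 => r.p0
  | 1 => r.p1
  | 2 => r.p2
  | 3 => r.p3
  | 4 => r.p4

/-- The scalar number `i` of a row. -/
def Row.e (r : Row) (i : Fin 5) : F4 :=
  match i with
  | 0 => 1
  | 1 => 1
  | 2 => r.e2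
  | 3 => r.e3
  | 4 => r.e4

theorem Row.e_ne {r : Row} (hr : r.Ok) (i : Fin 5) : r.e i ≠ 0 := by
  obtain ⟨-, -, ⟨he2, he3, he4⟩, -⟩ := hr
  fin_cases i
  exacts [one_ne_zero, one_ne_zero, he2, he3, he4]

theorem Row.f_eq (r : Row) (K : Fin 21 → Finset (F4 × F4)) (i : Fin 5) (x : F4) :
    r.f K i x = cnt K r.a (r.p i) (F4.frob (r.e i) * x) := by
  fin_cases i
  · change _ = cnt K r.a r.p0 (F4.frob 1 * x)
    rw [map_one, one_mul]
    rfl
  · change _ = cnt K r.a r.p1 (F4.frob 1 * x)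
    rw [map_one, one_mul]
    rfl
  · rfl
  · rfl
  · rfl

theorem Row.sum_f {r : Row} (hr : r.Ok) (K : Fin 21 → Finset (F4 × F4)) (i : Fin 5) :
    r.f K i F4.o + r.f K i F4.i + r.f K i F4.w + r.f K i F4.v = (K (r.p i)).card := by
  rw [← sum_F4]
  simp only [Row.f_eq]
  rw [sum_mul_left (map_ne (r.e_ne hr i)), sum_cnt]

end Pool.Agent.Lib.MP_4dc748_co.AB
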