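import Pool.Agent.Lib.MP_4dc748_co.AB.Line

/-!
# The rows of the standard position

Z is the class 0 = (0, 0, 1), l0 the line class 0. The row of a line class not through Z: p0 is its class on l0, and
p1 = 6 if the class 6 = (1, 0, 1) is on the line class.
-/

set_option autoImplicit false

namespace Pool.Agent.Lib.MP_4dc748_co.AB

open Pool.Agent.Lib.MP_4dc748_co.TA Pool.Agent.Lib.MP_4dc748_co.RS Matrix

/-- The rows. -/
def row (a : Fin 21) : Row :=
  match a.1 with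
  | 1 => ⟨1, 0, 5, 6, 7, 8, F4.i, F4.w, F4.v⟩
  | 2 => ⟨2, 5, 2, 10, 20, 15, F4.i, F4.i, F4.i⟩
  | 3 => ⟨3, 5, 4, 12, 19, 14, F4.i, F4.i, F4.i⟩
  | 4 => ⟨4, 5, 3, 11, 18, 16, F4.i, F4.i, F4.i⟩
  | 6 => ⟨6, 1, 6, 10, 14, 18, F4.i, F4.w, F4.v⟩
  | 7 => ⟨7, 1, 8, 12, 16, 20, F4.i, F4.w, F4.v⟩
  | 8 => ⟨8, 1, 7, 11, 15, 19, F4.i, F4.w, F4.v⟩
  | 9 => ⟨9, 0, 9, 10, 11, 12, F4.i, F4.w, F4.v⟩
  | 10 => ⟨10, 9, 6, 2, 19, 16, F4.i, F4.v, F4.w⟩
  | 11 => ⟨11, 9, 4, 8, 15, 18, F4.i, F4.i, F4.i⟩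
  | 12 => ⟨12, 9, 3, 7, 14, 20, F4.i, F4.i, F4.i⟩
  | 13 => ⟨13, 0, 17, 18, 19, 20, F4.i, F4.w, F4.v⟩
  | 14 => ⟨14, 17, 6, 3, 15, 12, F4.w, F4.v, F4.w⟩
  | 15 => ⟨15, 17, 2, 14, 8, 11, F4.i, F4.i, F4.i⟩
  | 16 => ⟨16, 17, 4, 16, 7, 10, F4.i, F4.i, F4.i⟩
  | 17 => ⟨17, 0, 13, 14, 15, 16, F4.i, F4.w, F4.v⟩
  | 18 => ⟨18, 13, 6, 4, 11, 20, F4.v, F4.v, F4.w⟩
  | 19 => ⟨19, 13, 3, 19, 10, 8, F4.i, F4.i, F4.i⟩
  | 20 => ⟨20, 13, 2, 18, 12, 7, F4.i, F4.i, F4.i⟩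
  | _ => ⟨5, 0, 1, 2, 3, 4, F4.i, F4.w, F4.v⟩

/-- A line class not through Z, different from l0. -/
def Gd (a : Fin 21) : Prop := ¬ On a 0 ∧ a ≠ 0

instance (a : Fin 21) : Decidable (Gd a) := inferInstanceAs (Decidable (_ ∧ _))

theorem row_ok : ∀ a : Fin 21, (row a).Ok := by
  decide +kernel

theorem row_a : ∀ a : Fin 21, a ≠ 0 → (row a).a = a := by
  decide +kernel

theorem row_Z : (row 5).a = 5 ∧ (row 5).p0 = 0 ∧ (row 5).p1 = 1 ∧ (row 5).p2 = 2 ∧ (row 5).p3 = 3 ∧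
    (row 5).p4 = 4 := by
  decide +kernel

theorem row_on : ∀ a : Fin 21, Gd a → On 0 (row a).p0 ∧ ¬ On 0 (row a).p1 ∧ ¬ On 0 (row a).p2 ∧
    ¬ On 0 (row a).p3 ∧ ¬ On 0 (row a).p4 ∧ (row a).p0 ≠ 0 ∧ (row a).p1 ≠ 0 ∧ (row a).p2 ≠ 0 ∧
    (row a).p3 ≠ 0 ∧ (row a).p4 ≠ 0 := by
  decide +kernel

theorem row_onZ : ∀ a : Fin 21, On a 0 → (row a).p0 = 0 ∧ On 0 (row a).p1 ∧ ¬ On 0 (row a).p2 ∧
    ¬ On 0 (row a).p3 ∧ ¬ On 0 (row a).p4 ∧ (row a).p1 ≠ 0 ∧ (row a).p2 ≠ 0 ∧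
    (row a).p3 ≠ 0 ∧ (row a).p4 ≠ 0 := by
  decide +kernel

theorem on_zero_ne : ∀ a : Fin 21, On a 0 → a ≠ 0 := by
  decide +kernel

theorem row_six : ∀ a : Fin 21, Gd a → On a 6 → (row a).p1 = 6 := by
  decide +kernel

theorem row_five : ∀ a : Fin 21, Gd a → On a 5 → (row a).p0 = 5 := by
  decide +kernel

theorem row_ex : ∀ a p : Fin 21, a ≠ 0 → On a p → ∃ i : Fin 5, (row a).p i = p := by
  decide +kernel

theorem row_inj : ∀ a : Fin 21, a ≠ 0 → ∀ i j : Fin 5, (row a).p i = (row a).p j → i = j := by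
  decide +kernel

theorem row_mem : ∀ a : Fin 21, a ≠ 0 → ∀ i : Fin 5, On a ((row a).p i) := by
  decide +kernel

/-- The scalars of the functional with given values at p0, p1. -/
theorem Row.exists_g {r : Row} (hr : r.Ok) (s t : F4) : ∃ g : Fin 3 → F4,
    ∀ i : Fin 5, g ⬝ᵥ (F4.frob ∘ vec (r.p i)) = F4.frob (r.e i) * lin i s t := by
  obtain ⟨-, hd, -, hv⟩ := hr
  obtain ⟨c, hc1, hc2⟩ := exists_c hd.1
  obtain ⟨c', hc1', hc2'⟩ := exists_c hd.1.symm
  have key : ∀ (q : Fin 21) (e m : F4), (∀ k : Fin 3, vec q k = e * (vec r.p0 k + m * vec r.p1 k)) →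
      (s • c + t • c') ⬝ᵥ (F4.frob ∘ vec q) = F4.frob e * (s + F4.frob m * t) := by
    intro q e m h
    have h1 : F4.frob ∘ vec q = F4.frob e • (F4.frob ∘ vec r.p0 + F4.frob m • (F4.frob ∘ vec r.p1)) := by
      funext k
      simp only [Function.comp_apply, Pi.smul_apply, Pi.add_apply, smul_eq_mul]
      rw [h k, map_mul, map_add, map_mul]
    rw [h1, dotProduct_smul, dotProduct_add, dotProduct_smul, add_dotProduct, add_dotProduct,
      smul_dotProduct, smul_dotProduct, smul_dotProduct, smul_dotProduct, hc1, hc2, hc1', hc2']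
    simp only [smul_eq_mul]
    ring
  have e3 : F4.frob F4.v = F4.w := by decide
  have e4 : F4.frob F4.w = F4.v := by decide
  refine ⟨s • c + t • c', fun i => ?_⟩
  fin_cases i
  · change (s • c + t • c') ⬝ᵥ (F4.frob ∘ vec r.p0) = F4.frob 1 * s
    rw [add_dotProduct, smul_dotProduct, smul_dotProduct, hc1, hc2', map_one]
    simp
  · change (s • c + t • c') ⬝ᵥ (F4.frob ∘ vec r.p1) = F4.frob 1 * t
    rw [add_dotProduct, smul_dotProduct, smul_dotProduct, hc2, hc1', map_one]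
    simp
  · have := key r.p2 r.e2 1 (fun k => by rw [(hv k).1, one_mul])
    rw [map_one, one_mul] at this
    exact this
  · have := key r.p3 r.e3 F4.v (fun k => (hv k).2.1)
    rw [e3] at this
    exact this
  · have := key r.p4 r.e4 F4.w (fun k => (hv k).2.2)
    rw [e4] at this
    exact this

/-- The sum of the points of a class. -/
def Dsum (K : Fin 21 → Finset (F4 × F4)) (p : Fin 21) : F4 × F4 := ∑ t ∈ K p, t

theorem lab_add (a p : Fin 21) (t t' : F4 × F4) : lab a p (t + t') = lab a p t + lab a p t' := by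
  unfold lab
  rw [← dotProduct_add]
  congr 1
  funext k
  unfold bpt
  by_cases h1 : p.1 = 0
  · rw [if_pos h1, if_pos h1, if_pos h1]
    fin_cases k <;> simp
  · rw [if_neg h1, if_neg h1, if_neg h1]
    by_cases h2 : p.1 < 5
    · rw [if_pos h2, if_pos h2, if_pos h2]
      fin_cases k <;> simp
    · rw [if_neg h2, if_neg h2, if_neg h2]
      fin_cases k <;> simp

theorem lab_zero (a p : Fin 21) : lab a p 0 = 0 := by
  have h := lab_add a p 0 0
  rw [add_zero] at h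
  have h2 := F4.add_self (lab a p 0)
  rw [h2] at h
  exact h

theorem lab_sum (a p : Fin 21) (S : Finset (F4 × F4)) :
    lab a p (∑ t ∈ S, t) = ∑ t ∈ S, lab a p t := by
  induction S using Finset.cons_induction with
  | empty => simp [lab_zero]
  | cons t S ht ih => rw [Finset.sum_cons, Finset.sum_cons, lab_add, ih]

theorem nsmul_F4 (n : ℕ) (x : F4) : n • x = if n % 2 = 1 then x else 0 := by
  induction n using Nat.twoStepInduction with
  | zero => simp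
  | one => simp
  | more n ih _ =>
    rw [show n + 2 = n + 1 + 1 from rfl, succ_nsmul, succ_nsmul, add_assoc, F4.add_self, add_zero, ih]
    have : (n + 1 + 1) % 2 = n % 2 := by omega
    rw [this]

theorem sum_F4' (g : F4 → F4) : ∑ x : F4, g x = g F4.o + g F4.i + g F4.w + g F4.v := by
  have h : (Finset.univ : Finset F4) = {F4.o, F4.i, F4.w, F4.v} := by decide
  rw [h, Finset.sum_insert (by decide), Finset.sum_insert (by decide), Finset.sum_insert (by decide),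
    Finset.sum_singleton]
  ring

theorem sum_nsmul (g : F4 → ℕ) : ∑ x : F4, g x • x = os (pat g) := by
  rw [sum_F4', nsmul_F4, nsmul_F4, nsmul_F4, nsmul_F4]
  unfold os pat
  have h0 : (if g F4.o % 2 = 1 then F4.o else 0) = 0 := by
    split_ifs <;> rfl
  rw [h0, zero_add]
  rfl

theorem sum_fiber (K : Fin 21 → Finset (F4 × F4)) (a p : Fin 21) :
    ∑ t ∈ K p, lab a p t = ∑ x : F4, cnt K a p x • x := by
  rw [← Finset.sum_fiberwise (K p) (fun t => lab a p t) (fun t => lab a p t)]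
  refine Finset.sum_congr rfl fun x _ => ?_
  unfold cnt
  rw [← Finset.sum_const]
  refine Finset.sum_congr rfl fun t ht => ?_
  exact (Finset.mem_filter.1 ht).2

/-- The label of the sum of the points. -/
theorem Row.lab_Dsum {r : Row} (hr : r.Ok) (K : Fin 21 → Finset (F4 × F4)) (i : Fin 5) :
    lab r.a (r.p i) (Dsum K (r.p i)) = F4.frob (r.e i) * os (pat (r.f K i)) := by
  have he : F4.frob (r.e i) ≠ 0 := map_ne (r.e_ne hr i)
  unfold Dsum
  rw [lab_sum, sum_fiber, ← sum_nsmul, Finset.mul_sum]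
  refine (Fintype.sum_bijective (fun x => F4.frob (r.e i) * x)
    ⟨fun x y h => mul_left_cancel₀ he h, fun y => ⟨(F4.frob (r.e i))⁻¹ * y, mul_inv_cancel_left₀ he y⟩⟩
    _ _ (fun x => ?_)).symm
  rw [Row.f_eq, mul_smul_comm]

end Pool.Agent.Lib.MP_4dc748_co.AB
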