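import Pool.Agent.Lib.MP_4dc748_co.RS.Iface

/-!
# Sections over the lines not through a point

Let D p, p in Fin 21, be vectors such that for every good line a (not through z, not through P0, not the line q r)
there is a vector g a with vec a . D p = g a . frob (vec p) for all classes p on a. Then for the line zeta = z q,
if it does not contain P0, the sum over the classes p on zeta of det (z, r, p) * (zeta . D p) is zero.

Proof: multiply the equation of the flag (a, p) by the coefficient
(a . P0) * ((a . r) * X p + (a . q) * (X p * Y p)^2), X p = det (z, r, p), Y p = det (z, q, p), and use that cubic forms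
sum to zero over the five points of a projective line over F4.
-/

set_option autoImplicit false

namespace Pool.Agent.Lib.MP_4dc748_co.AB

open Pool.Agent.Lib.MP_4dc748_co.RS

/-- det (x, y, t). -/
def det3 (x y t : Fin 3 → F4) : F4 :=
  (x 1 * y 2 + x 2 * y 1) * t 0 + (x 2 * y 0 + x 0 * y 2) * t 1 + (x 0 * y 1 + x 1 * y 0) * t 2

/-- The class p lies on the class line a. -/
def on (a p : Fin 21) : Bool := decide (vec a ⬝ᵥ vec p = 0)

theorem on_iff {a p : Fin 21} : on a p = true ↔ vec a ⬝ᵥ vec p = 0 := by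
  simp [on]

/-- cubic monomials sum to zero over the lines through a class. -/
theorem cubic_lines : ∀ (p : Fin 21) (i j k : Fin 3),
    (∑ a : Fin 21, if on a p then vec a i * vec a j * vec a k else 0) = 0 := by
  decide +kernel

/-- x_i x_j^2 sums to zero over the classes on a line. -/
theorem cubic_pts : ∀ (a : Fin 21) (i j : Fin 3),
    (∑ p : Fin 21, if on a p then vec p i * (vec p j * vec p j) else 0) = 0 := by
  decide +kernel

/-- x_i^2 x_j^2 x_k^2 sums to zero over the classes on a line. -/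
theorem sextic_pts : ∀ (a : Fin 21) (i j k : Fin 3),
    (∑ p : Fin 21, if on a p then (vec p i * vec p j * vec p k) * (vec p i * vec p j * vec p k) else 0) = 0 := by
  decide +kernel

/-- The coefficient of the flag (a, p). -/
def coef (z q r P0 : Fin 3 → F4) (a p : Fin 21) : F4 :=
  (vec a ⬝ᵥ P0) * ((vec a ⬝ᵥ r) * det3 z r (vec p) +
    (vec a ⬝ᵥ q) * ((det3 z r (vec p) * det3 z q (vec p)) * (det3 z r (vec p) * det3 z q (vec p))))

theorem sum_coef_lines (z q r P0 : Fin 3 → F4) (p : Fin 21) (i : Fin 3) :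
    (∑ a : Fin 21, if on a p then coef z q r P0 a p * vec a i else 0) = 0 := by
  set X := det3 z r (vec p) with hX
  set W := (det3 z r (vec p) * det3 z q (vec p)) * (det3 z r (vec p) * det3 z q (vec p)) with hW
  have h : ∀ a : Fin 21, (if on a p then coef z q r P0 a p * vec a i else 0) =
      ∑ j : Fin 3, ∑ k : Fin 3, (P0 j * (r k * X + q k * W)) *
        (if on a p then vec a j * vec a k * vec a i else 0) := by
    intro a
    by_cases ho : on a p = true
    · simp only [ho, if_true]
      unfold coef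
      rw [← hW, ← hX]
      simp only [dotProduct, Fin.sum_univ_three]
      ring
    · simp only [ho]
      simp
  rw [Finset.sum_congr rfl (fun a _ => h a), Finset.sum_comm]
  refine Finset.sum_eq_zero fun j _ => ?_
  rw [Finset.sum_comm]
  refine Finset.sum_eq_zero fun k _ => ?_
  rw [← Finset.mul_sum, cubic_lines p j k i, mul_zero]

theorem sq_add (x y : F4) : (x + y) * (x + y) = x * x + y * y := by
  have h : x * y + x * y = 0 := F4.add_self _
  linear_combination h

theorem sum_coef_pts (z q r P0 : Fin 3 → F4) (a : Fin 21) (i : Fin 3) :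
    (∑ p : Fin 21, if on a p then coef z q r P0 a p * (vec p i * vec p i) else 0) = 0 := by
  let x : Fin 3 → F4 := ![z 1 * r 2 + z 2 * r 1, z 2 * r 0 + z 0 * r 2, z 0 * r 1 + z 1 * r 0]
  let y : Fin 3 → F4 := ![z 1 * q 2 + z 2 * q 1, z 2 * q 0 + z 0 * q 2, z 0 * q 1 + z 1 * q 0]
  have h : ∀ p : Fin 21, (if on a p then coef z q r P0 a p * (vec p i * vec p i) else 0) =
      (∑ j : Fin 3, ((vec a ⬝ᵥ P0) * (vec a ⬝ᵥ r) * x j) *
        (if on a p then vec p j * (vec p i * vec p i) else 0)) +
      ∑ j : Fin 3, ∑ k : Fin 3, ((vec a ⬝ᵥ P0) * (vec a ⬝ᵥ q) * ((x j * y k) * (x j * y k))) *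
        (if on a p then (vec p j * vec p k * vec p i) * (vec p j * vec p k * vec p i) else 0) := by
    intro p
    by_cases ho : on a p = true
    · simp only [ho, if_true]
      have e1 : det3 z r (vec p) = x 0 * vec p 0 + x 1 * vec p 1 + x 2 * vec p 2 := rfl
      have e2 : det3 z q (vec p) = y 0 * vec p 0 + y 1 * vec p 1 + y 2 * vec p 2 := rfl
      unfold coef
      rw [e1, e2]
      have e3 : (x 0 * vec p 0 + x 1 * vec p 1 + x 2 * vec p 2) * (y 0 * vec p 0 + y 1 * vec p 1 + y 2 * vec p 2) *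
          ((x 0 * vec p 0 + x 1 * vec p 1 + x 2 * vec p 2) * (y 0 * vec p 0 + y 1 * vec p 1 + y 2 * vec p 2)) =
          (x 0 * vec p 0 * (x 0 * vec p 0) + x 1 * vec p 1 * (x 1 * vec p 1) + x 2 * vec p 2 * (x 2 * vec p 2)) *
          (y 0 * vec p 0 * (y 0 * vec p 0) + y 1 * vec p 1 * (y 1 * vec p 1) + y 2 * vec p 2 * (y 2 * vec p 2)) := by
        rw [mul_mul_mul_comm, sq_add, sq_add, sq_add, sq_add]
      rw [e3]
      simp only [Fin.sum_univ_three]
      ring
    · simp only [ho]
      simp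
  rw [Finset.sum_congr rfl (fun a _ => h a), Finset.sum_add_distrib]
  have h1 : (∑ p : Fin 21, ∑ j : Fin 3, ((vec a ⬝ᵥ P0) * (vec a ⬝ᵥ r) * x j) *
        (if on a p then vec p j * (vec p i * vec p i) else 0)) = 0 := by
    rw [Finset.sum_comm]
    refine Finset.sum_eq_zero fun j _ => ?_
    rw [← Finset.mul_sum, cubic_pts a j i, mul_zero]
  have h2 : (∑ p : Fin 21, ∑ j : Fin 3, ∑ k : Fin 3,
      ((vec a ⬝ᵥ P0) * (vec a ⬝ᵥ q) * ((x j * y k) * (x j * y k))) *
        (if on a p then (vec p j * vec p k * vec p i) * (vec p j * vec p k * vec p i) else 0)) = 0 := by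
    rw [Finset.sum_comm]
    refine Finset.sum_eq_zero fun j _ => ?_
    rw [Finset.sum_comm]
    refine Finset.sum_eq_zero fun k _ => ?_
    rw [← Finset.mul_sum, sextic_pts a j k i, mul_zero]
  rw [h1, h2, add_zero]

theorem cube_eq : ∀ x : F4, x ≠ 0 → x * x * x = 1 := by
  decide

theorem det_rel (z q r p a : Fin 3 → F4) (hz : a ⬝ᵥ z = 0) (hp : a ⬝ᵥ p = 0) :
    (a ⬝ᵥ q) * det3 z r p = (a ⬝ᵥ r) * det3 z q p := by
  have h : (a ⬝ᵥ q) * det3 z r p + (a ⬝ᵥ r) * det3 z q p + (a ⬝ᵥ p) * det3 z q r + (a ⬝ᵥ z) * det3 q r p = 0 := by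
    have h2 : ∀ x : F4, 2 * x = 0 := fun x => by rw [two_mul]; exact F4.add_self x
    simp only [dotProduct, Fin.sum_univ_three, det3]
    ring_nf
    simp only [mul_comm _ (2 : F4), h2, add_zero]
  rw [hz, hp, zero_mul, zero_mul, add_zero, add_zero] at h
  exact CharTwo.add_eq_zero.1 h

/-- The general section lemma. -/
theorem section_flags (z q r P0 : Fin 3 → F4) (D g : Fin 21 → Fin 3 → F4)
    (h : ∀ a p : Fin 21, vec a ⬝ᵥ z ≠ 0 → vec a ⬝ᵥ P0 ≠ 0 → ¬ (vec a ⬝ᵥ q = 0 ∧ vec a ⬝ᵥ r = 0) →
      vec a ⬝ᵥ vec p = 0 → vec a ⬝ᵥ D p = g a ⬝ᵥ (F4.frob ∘ vec p)) :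
    (∑ p : Fin 21, ∑ a : Fin 21,
      if on a p ∧ vec a ⬝ᵥ z = 0 then coef z q r P0 a p * (vec a ⬝ᵥ D p) else 0) = 0 := by
  have hall : (∑ p : Fin 21, ∑ a : Fin 21,
      if on a p then coef z q r P0 a p * (vec a ⬝ᵥ D p) else 0) = 0 := by
    refine Finset.sum_eq_zero fun p _ => ?_
    have h1 : ∀ a : Fin 21, (if on a p then coef z q r P0 a p * (vec a ⬝ᵥ D p) else 0) =
        ∑ i : Fin 3, (if on a p then coef z q r P0 a p * vec a i else 0) * D p i := by
      intro a
      by_cases ho : on a p = true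
      · simp only [ho, if_true, dotProduct, Fin.sum_univ_three]
        ring
      · simp [ho]
    rw [Finset.sum_congr rfl (fun a _ => h1 a), Finset.sum_comm]
    refine Finset.sum_eq_zero fun i _ => ?_
    rw [← Finset.sum_mul, sum_coef_lines, zero_mul]
  have hgood : (∑ a : Fin 21, ∑ p : Fin 21,
      if on a p ∧ ¬ vec a ⬝ᵥ z = 0 then coef z q r P0 a p * (vec a ⬝ᵥ D p) else 0) = 0 := by
    refine Finset.sum_eq_zero fun a _ => ?_
    by_cases hz : vec a ⬝ᵥ z = 0
    · simp [hz]
    · have h1 : ∀ p : Fin 21, (if on a p ∧ ¬ vec a ⬝ᵥ z = 0 then coef z q r P0 a p * (vec a ⬝ᵥ D p) else 0) =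
          ∑ i : Fin 3, g a i * (if on a p then coef z q r P0 a p * (vec p i * vec p i) else 0) := by
        intro p
        by_cases ho : on a p = true
        · have hp : vec a ⬝ᵥ vec p = 0 := on_iff.1 ho
          have h2 : coef z q r P0 a p * (vec a ⬝ᵥ D p) = coef z q r P0 a p * (g a ⬝ᵥ (F4.frob ∘ vec p)) := by
            by_cases hP : vec a ⬝ᵥ P0 = 0
            · simp [coef, hP]
            · by_cases hl : vec a ⬝ᵥ q = 0 ∧ vec a ⬝ᵥ r = 0
              · simp [coef, hl.1, hl.2]
              · rw [h a p hz hP hl hp]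
          simp only [ho, hz, not_false_eq_true, and_self, if_true]
          rw [h2]
          simp only [dotProduct, Fin.sum_univ_three, Function.comp, F4.frob_apply]
          ring
        · simp [ho]
      rw [Finset.sum_congr rfl (fun p _ => h1 p), Finset.sum_comm]
      refine Finset.sum_eq_zero fun i _ => ?_
      rw [← Finset.mul_sum, sum_coef_pts, mul_zero]
  rw [Finset.sum_comm] at hgood
  have hsum : (∑ p : Fin 21, ∑ a : Fin 21,
      if on a p ∧ vec a ⬝ᵥ z = 0 then coef z q r P0 a p * (vec a ⬝ᵥ D p) else 0) +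
      (∑ p : Fin 21, ∑ a : Fin 21,
      if on a p ∧ ¬ vec a ⬝ᵥ z = 0 then coef z q r P0 a p * (vec a ⬝ᵥ D p) else 0) =
      ∑ p : Fin 21, ∑ a : Fin 21, if on a p then coef z q r P0 a p * (vec a ⬝ᵥ D p) else 0 := by
    rw [← Finset.sum_add_distrib]
    refine Finset.sum_congr rfl fun p _ => ?_
    rw [← Finset.sum_add_distrib]
    refine Finset.sum_congr rfl fun a _ => ?_
    by_cases ho : on a p = true <;> by_cases hz : vec a ⬝ᵥ z = 0 <;> simp [ho, hz]
  rw [hgood, add_zero, hall] at hsum
  exact hsum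

/-- The section lemma: zeta = the line z q. -/
theorem section_sum (z q r P0 : Fin 3 → F4) (D g : Fin 21 → Fin 3 → F4)
    (h : ∀ a p : Fin 21, vec a ⬝ᵥ z ≠ 0 → vec a ⬝ᵥ P0 ≠ 0 → ¬ (vec a ⬝ᵥ q = 0 ∧ vec a ⬝ᵥ r = 0) →
      vec a ⬝ᵥ vec p = 0 → vec a ⬝ᵥ D p = g a ⬝ᵥ (F4.frob ∘ vec p))
    {s : Fin 21} (hsz : vec s ⬝ᵥ z = 0) (hsq : vec s ⬝ᵥ q = 0) (hsr : vec s ⬝ᵥ r ≠ 0) (hsP : vec s ⬝ᵥ P0 ≠ 0)
    (huniq : ∀ a : Fin 21, vec a ⬝ᵥ z = 0 → vec a ⬝ᵥ q = 0 → a = s) :
    (∑ p : Fin 21, if on s p then det3 z r (vec p) * (vec s ⬝ᵥ D p) else 0) = 0 := by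
  have h0 := section_flags z q r P0 D g h
  have h1 : ∀ p a : Fin 21, (if on a p ∧ vec a ⬝ᵥ z = 0 then coef z q r P0 a p * (vec a ⬝ᵥ D p) else 0) =
      (if a = s then (if on s p then
        (vec s ⬝ᵥ P0) * (vec s ⬝ᵥ r) * (det3 z r (vec p) * (vec s ⬝ᵥ D p)) else 0) else 0) := by
    intro p a
    by_cases ho : on a p = true
    · by_cases hz : vec a ⬝ᵥ z = 0
      · have hr := det_rel z q r (vec p) (vec a) hz (on_iff.1 ho)
        simp only [ho, hz, and_self, if_true]
        by_cases ha : a = s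
        · subst ha
          rw [hsq, zero_mul] at hr
          have hY : det3 z q (vec p) = 0 := (mul_eq_zero.1 hr.symm).resolve_left hsr
          simp only [if_true, ho, coef, hsq, hY]
          ring
        · rw [if_neg ha]
          by_cases hY : det3 z q (vec p) = 0
          · rw [hY, mul_zero] at hr
            rcases mul_eq_zero.1 hr with h2 | h2
            · exact absurd (huniq a hz h2) ha
            · simp [coef, h2]
          · have h3 := cube_eq _ hY
            have h4 : coef z q r P0 a p = 0 := by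
              unfold coef
              have h5 : (vec a ⬝ᵥ q) * ((det3 z r (vec p) * det3 z q (vec p)) *
                  (det3 z r (vec p) * det3 z q (vec p))) =
                  (vec a ⬝ᵥ r) * det3 z r (vec p) := by
                calc (vec a ⬝ᵥ q) * ((det3 z r (vec p) * det3 z q (vec p)) *
                    (det3 z r (vec p) * det3 z q (vec p)))
                    = ((vec a ⬝ᵥ q) * det3 z r (vec p)) * det3 z r (vec p) *
                      (det3 z q (vec p) * det3 z q (vec p)) := by ring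
                  _ = ((vec a ⬝ᵥ r) * det3 z q (vec p)) * det3 z r (vec p) *
                      (det3 z q (vec p) * det3 z q (vec p)) := by rw [hr]
                  _ = (vec a ⬝ᵥ r) * det3 z r (vec p) *
                      (det3 z q (vec p) * det3 z q (vec p) * det3 z q (vec p)) := by ring
                  _ = (vec a ⬝ᵥ r) * det3 z r (vec p) := by rw [h3, mul_one]
              rw [h5, F4.add_self, mul_zero]
            rw [h4, zero_mul]
      · have ha : a ≠ s := fun e => hz (e ▸ hsz)
        simp [hz, ha]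
    · by_cases ha : a = s
      · subst ha
        simp [ho]
      · simp [ho, ha]
  rw [Finset.sum_congr rfl (fun p _ => Finset.sum_congr rfl (fun a _ => h1 p a))] at h0
  simp only [Finset.sum_ite_eq', Finset.mem_univ, if_true] at h0
  have h2 : (vec s ⬝ᵥ P0) * (vec s ⬝ᵥ r) *
      (∑ p : Fin 21, if on s p then det3 z r (vec p) * (vec s ⬝ᵥ D p) else 0) = 0 := by
    rw [Finset.mul_sum]
    refine Eq.trans (Finset.sum_congr rfl fun p _ => ?_) h0
    by_cases ho : on s p = true
    · simp only [ho, if_true]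
    · simp only [ho]
      simp
  exact (mul_eq_zero.1 h2).resolve_left (mul_ne_zero hsP hsr)

end Pool.Agent.Lib.MP_4dc748_co.AB
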