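import Pool.Agent.Lib.MP_4dc748_co.AB.Rows
import Pool.Agent.Lib.MP_4dc748_co.AB.Sec39

/-!
# The standard position: Z = class 0, l0 = line class 0, P0 = class 5 or class 6
-/

set_option autoImplicit false

namespace Pool.Agent.Lib.MP_4dc748_co.AB

open Pool.Agent.Lib.MP_4dc748_co.TA Pool.Agent.Lib.MP_4dc748_co.RS Matrix

/-- Standard position. -/
structure Std (K : Fin 21 → Finset (F4 × F4)) (c : Fin 21) : Prop where
  lb : LineBound F4.frob 7 K
  hc : c = 5 ∨ c = 6
  z0 : (K 0).card = 0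
  sz : ∀ p, p ≠ 0 → (K p).card = (if On 0 p then 2 else 6) - (if p = c then 1 else 0)

variable {K : Fin 21 → Finset (F4 × F4)} {c : Fin 21}

/-- The classes with six points. -/
def S6 (c : Fin 21) : Finset (Fin 21) := Finset.univ.filter (fun p => p ≠ 0 ∧ ¬ On 0 p ∧ p ≠ c)

theorem mem_S6 {c p : Fin 21} : p ∈ S6 c ↔ p ≠ 0 ∧ ¬ On 0 p ∧ p ≠ c := by
  simp [S6]

theorem Std.six (h : Std K c) {p : Fin 21} (hp : p ∈ S6 c) : (K p).card = 6 := by
  rw [mem_S6] at hp
  rw [h.sz p hp.1, if_neg hp.2.1, if_neg hp.2.2]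

theorem tot_eq {a : Fin 21} (i : Fin 5) : tot ((row a).f K) i = (K ((row a).p i)).card :=
  Row.sum_f (row_ok a) K i

theorem Std.oa (h : Std K c) (a : Fin 21) : Oa 7 ((row a).f K) := Row.oa (row_ok a) h.lb

theorem ex26 {n : Fin 5 → Pat} (hp : post26 (n 0) (n 1) (n 2) (n 3) (n 4) = true) :
    post25 (n 0) (n 1) (n 2) (n 3) (n 4) = true := by
  unfold post26 at hp
  unfold post25
  simp only [Bool.and_eq_true] at hp ⊢
  obtain ⟨⟨⟨⟨⟨⟨-, q12⟩, q13⟩, q14⟩, q23⟩, q24⟩, q34⟩ := hp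
  exact ⟨⟨⟨⟨⟨q12, q13⟩, q14⟩, q23⟩, q24⟩, q34⟩

theorem ex25 {n : Fin 5 → Pat} (hp : post25 (n 0) (n 1) (n 2) (n 3) (n 4) = true) (i j : Fin 5)
    (hij : i ≠ j) (i0 : i ≠ 0) (j0 : j ≠ 0) (zi : hz (n i) = true) (zj : hz (n j) = true) : False := by
  unfold post25 at hp
  simp only [Bool.and_eq_true, Bool.not_eq_true', Bool.and_eq_false_imp] at hp
  fin_cases i <;> fin_cases j <;> simp_all

theorem ex25' {n : Fin 5 → Pat} (hp : post25' (n 0) (n 1) (n 2) (n 3) (n 4) = true) (i j : Fin 5)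
    (hij : i ≠ j) (i0 : i ≠ 0) (j0 : j ≠ 0) (i1 : i ≠ 1) (j1 : j ≠ 1) (zi : hz (n i) = true)
    (zj : hz (n j) = true) : False := by
  unfold post25' at hp
  simp only [Bool.and_eq_true, Bool.not_eq_true', Bool.and_eq_false_imp] at hp
  fin_cases i <;> fin_cases j <;> simp_all

/-- Two classes on a good line class with a zero count are equal. -/
theorem Std.excl (h : Std K c) {a : Fin 21} (ha : Gd a) (i j : Fin 5) (hij : i ≠ j)
    (hi : (row a).p i ∈ S6 c) (hj : (row a).p j ∈ S6 c)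
    (zi : hz (pat ((row a).f K i)) = true) (zj : hz (pat ((row a).f K j)) = true) : False := by
  have hon := row_on a ha
  have t0 : tot ((row a).f K) 0 = (K (row a).p0).card := tot_eq 0
  have t1 : tot ((row a).f K) 1 = (K (row a).p1).card := tot_eq 1
  have t2 : tot ((row a).f K) 2 = (K (row a).p2).card := tot_eq 2
  have t3 : tot ((row a).f K) 3 = (K (row a).p3).card := tot_eq 3
  have t4 : tot ((row a).f K) 4 = (K (row a).p4).card := tot_eq 4
  obtain ⟨o0, o1, o2, o3, o4, n0, n1, n2, n3, n4⟩ := hon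
  have inj := row_inj a ha.2
  have i0 : i ≠ 0 := by
    rintro rfl
    exact (mem_S6.1 hi).2.1 o0
  have j0 : j ≠ 0 := by
    rintro rfl
    exact (mem_S6.1 hj).2.1 o0
  rw [h.sz _ n0, if_pos o0] at t0
  rw [h.sz _ n1, if_neg o1] at t1
  rw [h.sz _ n2, if_neg o2] at t2
  rw [h.sz _ n3, if_neg o3] at t3
  rw [h.sz _ n4, if_neg o4] at t4
  by_cases hac : On a c
  · rcases h.hc with h5 | h6
    · have e0 : (row a).p0 = c := by
        rw [h5]
        exact row_five a ha (h5 ▸ hac)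
      have d1 : (row a).p1 ≠ c := fun e => absurd (inj 1 0 (e.trans e0.symm)) (by decide)
      have d2 : (row a).p2 ≠ c := fun e => absurd (inj 2 0 (e.trans e0.symm)) (by decide)
      have d3 : (row a).p3 ≠ c := fun e => absurd (inj 3 0 (e.trans e0.symm)) (by decide)
      have d4 : (row a).p4 ≠ c := fun e => absurd (inj 4 0 (e.trans e0.symm)) (by decide)
      rw [if_pos e0] at t0
      rw [if_neg d1] at t1
      rw [if_neg d2] at t2
      rw [if_neg d3] at t3
      rw [if_neg d4] at t4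
      exact ex25 (n := fun i => pat ((row a).f K i)) (line25B (h.oa a) t0 t1 t2 t3 t4) i j hij i0 j0
        zi zj
    · have e1 : (row a).p1 = c := by
        rw [h6]
        exact row_six a ha (h6 ▸ hac)
      have d0 : (row a).p0 ≠ c := fun e => absurd (inj 0 1 (e.trans e1.symm)) (by decide)
      have d2 : (row a).p2 ≠ c := fun e => absurd (inj 2 1 (e.trans e1.symm)) (by decide)
      have d3 : (row a).p3 ≠ c := fun e => absurd (inj 3 1 (e.trans e1.symm)) (by decide)
      have d4 : (row a).p4 ≠ c := fun e => absurd (inj 4 1 (e.trans e1.symm)) (by decide)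
      have i1 : i ≠ 1 := by
        rintro rfl
        exact (mem_S6.1 hi).2.2 e1
      have j1 : j ≠ 1 := by
        rintro rfl
        exact (mem_S6.1 hj).2.2 e1
      rw [if_neg d0] at t0
      rw [if_pos e1] at t1
      rw [if_neg d2] at t2
      rw [if_neg d3] at t3
      rw [if_neg d4] at t4
      exact ex25' (n := fun i => pat ((row a).f K i)) (line25A (h.oa a) t0 t1 t2 t3 t4) i j hij i0 j0
        i1 j1 zi zj
  · have d : ∀ i : Fin 5, (row a).p i ≠ c := by
      intro i e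
      apply hac
      rw [← e]
      exact row_mem a ha.2 i
    have d0 : (row a).p0 ≠ c := d 0
    have d1 : (row a).p1 ≠ c := d 1
    have d2 : (row a).p2 ≠ c := d 2
    have d3 : (row a).p3 ≠ c := d 3
    have d4 : (row a).p4 ≠ c := d 4
    rw [if_neg d0] at t0
    rw [if_neg d1] at t1
    rw [if_neg d2] at t2
    rw [if_neg d3] at t3
    rw [if_neg d4] at t4
    exact ex25 (n := fun i => pat ((row a).f K i))
      (ex26 (n := fun i => pat ((row a).f K i)) (line26 (h.oa a) t0 t1 t2 t3 t4)) i j hij i0 j0 zi zj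

/-- The label functional of a good line class not through P0. -/
theorem Std.section_g (h : Std K c) {a : Fin 21} (ha : Gd a) (hac : ¬ On a c) :
    ∃ g : Fin 3 → F4, ∀ p, On a p → lab a p (Dsum K p) = g ⬝ᵥ (F4.frob ∘ vec p) := by
  obtain ⟨o0, o1, o2, o3, o4, n0, n1, n2, n3, n4⟩ := row_on a ha
  have t0 : tot ((row a).f K) 0 = (K (row a).p0).card := tot_eq 0
  have t1 : tot ((row a).f K) 1 = (K (row a).p1).card := tot_eq 1
  have t2 : tot ((row a).f K) 2 = (K (row a).p2).card := tot_eq 2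
  have t3 : tot ((row a).f K) 3 = (K (row a).p3).card := tot_eq 3
  have t4 : tot ((row a).f K) 4 = (K (row a).p4).card := tot_eq 4
  have d : ∀ i : Fin 5, (row a).p i ≠ c := by
    intro i e
    apply hac
    rw [← e]
    exact row_mem a ha.2 i
  have d0 : (row a).p0 ≠ c := d 0
  have d1 : (row a).p1 ≠ c := d 1
  have d2 : (row a).p2 ≠ c := d 2
  have d3 : (row a).p3 ≠ c := d 3
  have d4 : (row a).p4 ≠ c := d 4
  rw [h.sz _ n0, if_pos o0, if_neg d0] at t0
  rw [h.sz _ n1, if_neg o1, if_neg d1] at t1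
  rw [h.sz _ n2, if_neg o2, if_neg d2] at t2
  rw [h.sz _ n3, if_neg o3, if_neg d3] at t3
  rw [h.sz _ n4, if_neg o4, if_neg d4] at t4
  have hp := line26 (h.oa a) t0 t1 t2 t3 t4
  simp only [post26, Bool.and_eq_true, beq_iff_eq] at hp
  obtain ⟨⟨⟨⟨⟨⟨⟨⟨s2, s3⟩, s4⟩, -⟩, -⟩, -⟩, -⟩, -⟩, -⟩ := hp
  obtain ⟨g, hg⟩ := Row.exists_g (row_ok a) (os (pat ((row a).f K 0))) (os (pat ((row a).f K 1)))
  refine ⟨g, fun p hp => ?_⟩
  obtain ⟨i, rfl⟩ := row_ex a p ha.2 hp
  have h1 := Row.lab_Dsum (row_ok a) K i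
  rw [row_a a ha.2] at h1
  rw [h1, hg i]
  congr 1
  fin_cases i
  exacts [rfl, rfl, s2, s3, s4]

end Pool.Agent.Lib.MP_4dc748_co.AB
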